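import Mathlib

/-! Elementary counting of integers with few primes. -/

set_option autoImplicit false

namespace Pool.Agent.P.MP_7aad9f_nt.TR

open Finset

theorem pf {a : ℕ} (ha : a ≠ 0) {A : Finset ℕ} (h : a.primeFactors ⊆ A) :
    ∏ p ∈ A, p ^ a.factorization p = a := by
  conv_rhs => rw [← Nat.prod_factorization_pow_eq_self ha]
  exact (Finsupp.prod_of_support_subset _ h _ fun _ _ => pow_zero _).symm

theorem cntb (A : Finset ℕ) (G : ℕ) : ∃ B : Finset ℕ, B.card ≤ (G + 1) ^ A.card ∧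
    ∀ a, a ≠ 0 → a.primeFactors ⊆ A → (∀ p, a.factorization p ≤ G) → a ∈ B :=
  ⟨(A.pi fun _ => range (G + 1)).image fun f => ∏ p ∈ A.attach, p.1 ^ f p.1 p.2,
    card_image_le.trans (by simp), fun a h0 h1 h2 => mem_image.2 ⟨fun p _ => a.factorization p,
      mem_pi.2 fun p _ => mem_range.2 (Nat.lt_succ_of_le (h2 p)),
      (prod_attach A fun p => p ^ a.factorization p).trans (pf h0 h1)⟩⟩

theorem facle {a G : ℕ} (ha : a ≠ 0) (h : a ≤ 2 ^ G) (p : ℕ) : a.factorization p ≤ G := by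
  by_cases hp : p.Prime
  · exact (Nat.pow_le_pow_iff_right (by norm_num)).1
      (((Nat.pow_le_pow_left hp.two_le _).trans (Nat.ordProj_le p ha)).trans h)
  · simp [Nat.factorization_eq_zero_of_not_prime a hp]

theorem dec0 {σ : ℕ} (hσ : 1 ≤ σ) (a : ℕ) (ha : a ≠ 0) :
    ∃ M d, a = M ^ σ * d ∧ ∀ p, d.factorization p ≤ σ := by
  induction a using Nat.strong_induction_on with
  | _ a ih =>
    by_cases h : ∀ p, a.factorization p ≤ σ
    · exact ⟨1, a, by simp, h⟩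
    push Not at h
    obtain ⟨p, h⟩ := h
    have hp : p.Prime := by
      by_contra hp
      simp [Nat.factorization_eq_zero_of_not_prime a hp] at h
    obtain ⟨b, rfl⟩ := (hp.pow_dvd_iff_le_factorization ha).2 h.le
    have hb : b ≠ 0 := right_ne_zero_of_mul ha
    obtain ⟨M, d, rfl, h2⟩ := ih b (lt_mul_of_one_lt_left (Nat.pos_of_ne_zero hb)
      (Nat.one_lt_pow (by omega) hp.one_lt)) hb
    exact ⟨p * M, d, by ring, h2⟩

theorem dec {σ a Y : ℕ} (hσ : 1 ≤ σ) (ha : a ≠ 0) (hY : ∏ p ∈ a.primeFactors, p ≤ Y) :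
    ∃ M d, a = M ^ σ * d ∧ d ≤ Y ^ σ := by
  obtain ⟨M, d, e, h⟩ := dec0 hσ a ha
  refine ⟨M, d, e, le_trans ?_ (Nat.pow_le_pow_left hY σ)⟩
  rw [← pf (right_ne_zero_of_mul (e ▸ ha)) (Nat.primeFactors_mono ⟨_, e.trans (mul_comm _ _)⟩ ha),
    ← prod_pow]
  exact prod_le_prod' fun p hp =>
    Nat.pow_le_pow_right (Nat.pos_of_mem_primeFactors hp) (h p)

theorem big {A B : Finset ℕ} {z : ℕ} (h : B ⊆ A) (hA : ∀ p ∈ A, p.Prime) (hB : ∀ p ∈ B, z ≤ p) :
    z ^ B.card ≤ ∏ p ∈ A, p :=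
  (pow_card_le_prod _ (fun p => p) _ hB).trans
    (prod_le_prod_of_subset_of_one_le' h fun p hp _ => (hA p hp).one_le)

theorem cnt {A : Finset ℕ} {K u : ℕ} (L : ℕ) (hL : 1 ≤ L) (hK : 1 ≤ K) (hA : ∀ p ∈ A, p.Prime)
    (hu : ∏ p ∈ A, p ≤ u ^ K) : ∃ B : Finset ℕ,
      B.card ≤ (u + 1) * ((L + 1) ^ (L + 1) ^ K * u) ∧
      ∀ a, a ≠ 0 → a.primeFactors ⊆ A → a ≤ u ^ L → a ∈ B := by
  obtain ⟨B, h1, h2⟩ := cntb A L
  refine ⟨(range (u + 1) ×ˢ B).image fun x => x.1 ^ L * x.2, card_image_le.trans ?_,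
    fun a a0 a1 a2 => ?_⟩
  · rw [card_product, card_range]
    refine Nat.mul_le_mul_left _ (h1.trans ?_)
    rw [← card_filter_add_card_filter_not (s := A) (· < (L + 1) ^ K), pow_add]
    refine Nat.mul_le_mul (Nat.pow_le_pow_right (by omega) ((card_le_card fun p hp =>
      mem_range.2 (mem_filter.1 hp).2).trans_eq (card_range _))) ?_
    rw [← Nat.pow_le_pow_iff_left (show K ≠ 0 by omega), ← pow_mul, mul_comm, pow_mul]
    exact (big (filter_subset _ _) hA fun p hp => not_lt.1 (mem_filter.1 hp).2).trans hu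
  · obtain ⟨M, d, e, h⟩ := dec0 hL a a0
    have d0 := right_ne_zero_of_mul (e ▸ a0)
    refine mem_image.2 ⟨(M, d), mem_product.2 ⟨mem_range.2 (Nat.lt_succ_of_le ?_), h2 d d0
      ((Nat.primeFactors_mono ⟨_, e.trans (mul_comm _ _)⟩ a0).trans a1) h⟩, e.symm⟩
    rw [← Nat.pow_le_pow_iff_left (show L ≠ 0 by omega)]
    exact ((Nat.le_mul_of_pos_right _ (Nat.pos_of_ne_zero d0)).trans e.ge).trans a2

theorem modl {a z Y θ : ℕ} (ha : a ≠ 0) (hθ : 1 ≤ θ) (hz : 2 ≤ z) (hzY : z ≤ Y)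
    (hp : ∀ p, p.Prime → p ∣ a → p ≤ z) (hY : ∏ p ∈ a.primeFactors, p ≤ Y)
    (h : Y ^ (2 * θ) ≤ a) : ∃ m, z ≤ m ∧ m ≤ z ^ 2 ∧ m ^ θ ∣ a := by
  classical
  obtain ⟨M, d, e, hd⟩ := dec hθ ha hY
  have h1 : Y ≤ M := by
    rw [← Nat.pow_le_pow_iff_left (show θ ≠ 0 by omega)]
    rw [two_mul, pow_add, e] at h
    exact Nat.le_of_mul_le_mul_right (h.trans (Nat.mul_le_mul_left _ hd))
      (Nat.pow_pos (by omega))
  have h2 : ∃ m, z ≤ m ∧ m ∣ M := ⟨M, by omega, dvd_rfl⟩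
  obtain ⟨h3, h4⟩ := Nat.find_spec h2
  have h5 : Nat.find h2 ^ θ ∣ a := e ▸ (pow_dvd_pow_of_dvd h4 _).mul_right _
  refine ⟨_, h3, ?_, h5⟩
  obtain ⟨p, p1, k, hk⟩ := Nat.exists_prime_and_dvd (show Nat.find h2 ≠ 1 by omega)
  have k0 : 0 < k := Nat.pos_of_ne_zero fun e => by simp [e] at hk; omega
  have := Nat.find_min h2 (hk ▸ lt_mul_of_one_lt_left k0 p1.one_lt)
  rw [hk, sq]
  exact Nat.mul_le_mul (hp p p1 ((Dvd.intro _ hk.symm).trans ((dvd_pow_self _ (by omega)).trans h5)))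
    (le_of_not_ge fun h => this ⟨h, (Dvd.intro_left _ hk.symm).trans h4⟩)

theorem sb (z a : ℕ) (ha : a ≠ 0) : ∃ s b, a = s * b ∧ (∀ p, p.Prime → p ∣ s → p ≤ z) ∧
    ∀ p, p.Prime → p ∣ b → z < p := by
  induction a using induction_on_primes with
  | zero => exact absurd rfl ha
  | one => exact ⟨1, 1, rfl, fun p h h' => (h.not_dvd_one h').elim, fun p h h' =>
      (h.not_dvd_one h').elim⟩
  | prime_mul q a hq ih =>
    obtain ⟨s, b, rfl, h1, h2⟩ := ih (right_ne_zero_of_mul ha)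
    rcases le_or_gt q z with h | h
    · exact ⟨q * s, b, by ring, fun p hp h' => ((Nat.Prime.dvd_mul hp).1 h').elim
        (fun h' => (Nat.prime_dvd_prime_iff_eq hp hq).1 h' ▸ h) (h1 p hp), h2⟩
    · exact ⟨s, q * b, by ring, h1, fun p hp h' => ((Nat.Prime.dvd_mul hp).1 h').elim
        (fun h' => (Nat.prime_dvd_prime_iff_eq hp hq).1 h' ▸ h) (h2 p hp)⟩

theorem atoms {b G t : ℕ} (hb : b ≠ 0) (hG : 1 ≤ G) (h : b ≤ 2 ^ G)
    (ht : b.primeFactors.card ≤ t) : ∃ (s : Finset (Fin t)) (g r : Fin t → ℕ),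
      b = ∏ j ∈ s, r j ^ g j ∧ (∀ j, 1 ≤ g j ∧ g j ≤ G) ∧
      ∀ j ∈ s, r j ∈ b.primeFactors ∧ ∀ i ∈ s, r i = r j → i = j := by
  obtain ⟨f⟩ := Function.Embedding.nonempty_of_card_le (α := b.primeFactors) (β := Fin t)
    (by simpa using ht)
  have e := f.injective.extend_apply (fun p => (p : ℕ)) fun _ => 0
  refine ⟨univ.map f, fun j => max 1 (b.factorization (Function.extend f (fun p => p) (fun _ => 0) j)),
    Function.extend f (fun p => p) fun _ => 0, ?_, fun j => ⟨le_max_left _ _,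
      max_le hG (facle hb h _)⟩, fun j hj => ?_⟩
  · rw [prod_map]
    simp only [e]
    rw [prod_coe_sort _ fun p => p ^ max 1 (b.factorization p)]
    refine (pf hb Subset.rfl).symm.trans (prod_congr rfl fun p hp => ?_)
    rw [max_eq_right ((Nat.prime_of_mem_primeFactors hp).factorization_pos_of_dvd hb
      (Nat.dvd_of_mem_primeFactors hp))]
  · obtain ⟨p, -, rfl⟩ := mem_map.1 hj
    refine ⟨e p ▸ p.2, fun i hi h => ?_⟩
    obtain ⟨q, -, rfl⟩ := mem_map.1 hi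
    rw [e, e] at h
    rw [Subtype.ext h]

end Pool.Agent.P.MP_7aad9f_nt.TR
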