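import Pool.Agent.P.MP_7aad9f_nt.TR.GT
import Pool.Agent.P.MP_7aad9f_nt.TR.Cnt

/-! The count in natural numbers. -/

set_option autoImplicit false

namespace Pool.Agent.P.MP_7aad9f_nt.TR

open Finset

theorem two {α : Type} (S : Finset α) (R R' : α → Prop) (n n' : ℕ) (hf : ∀ P ∈ S, R P ∨ R' P)
    (h : ∀ S' ⊆ S, (∀ P ∈ S', R P) → S'.card ≤ n)
    (h' : ∀ S' ⊆ S, (∀ P ∈ S', R' P) → S'.card ≤ n') : S.card ≤ n + n' := by
  classical
  rw [← card_filter_add_card_filter_not R]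
  exact add_le_add (h _ (filter_subset _ _) fun P hP => (mem_filter.1 hP).2)
    (h' _ (filter_subset _ _) fun P hP => (hf P (mem_filter.1 hP).1).resolve_left (mem_filter.1 hP).2)

/-- a family of triples with fixed signs -/
structure Tri {α : Type} (S : Finset α) (a b c : α → ℕ) (e f : ℤ) (A : Finset ℕ) (Y G : ℕ) :
    Prop where
  un : e * e = 1 ∧ f * f = 1
  pos : ∀ P ∈ S, a P ≠ 0 ∧ b P ≠ 0 ∧ c P ≠ 0
  cop : ∀ P ∈ S, (a P).Coprime (b P)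
  eq : ∀ P ∈ S, (c P : ℤ) = e * a P + f * b P
  sub : ∀ P ∈ S, (a P).primeFactors ⊆ A ∧ (b P).primeFactors ⊆ A ∧ ∏ p ∈ (c P).primeFactors, p ≤ Y
  le : ∀ P ∈ S, a P ≤ 2 ^ G ∧ b P ≤ 2 ^ G ∧ c P ≤ 2 ^ G
  inj : ∀ P ∈ S, ∀ Q ∈ S, a P = a Q → b P = b Q → P = Q

/-- the parameters -/
structure Par (t κ F L u Y G : ℕ) (A : Finset ℕ) : Prop where
  t1 : 1 ≤ t
  hκ : κ = 2 * (t + 1) ^ 2 * t ^ 2
  hF : F = 2 * (2 * κ) ^ t
  hL : L = 48 * κ * F * t ^ 6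
  hG : t + 2 ≤ G
  hu : G ^ (3 * (t + 2) ^ 2) ≤ u
  hC : (L + 1) ^ (L + 1) ^ t ^ 2 ≤ u
  uY : u ^ t ≤ Y
  Yu : Y ≤ u ^ t ^ 2
  pA : ∀ p ∈ A, p.Prime
  AY : ∏ p ∈ A, p ≤ Y

variable {α : Type} {S : Finset α} {a b c : α → ℕ} {e f : ℤ} {A : Finset ℕ} {t κ F L u Y G : ℕ}

theorem Tri.mono (h : Tri S a b c e f A Y G) {S' : Finset α} (hS : S' ⊆ S) :
    Tri S' a b c e f A Y G :=
  ⟨h.un, fun P hP => h.pos P (hS hP), fun P hP => h.cop P (hS hP), fun P hP => h.eq P (hS hP),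
    fun P hP => h.sub P (hS hP), fun P hP => h.le P (hS hP),
    fun P hP Q hQ => h.inj P (hS hP) Q (hS hQ)⟩

theorem Tri.swap (h : Tri S a b c e f A Y G) : Tri S b a c f e A Y G :=
  ⟨h.un.symm, fun P hP => by have := h.pos P hP; tauto, fun P hP => (h.cop P hP).symm,
    fun P hP => by rw [h.eq P hP, add_comm], fun P hP => by have := h.sub P hP; tauto,
    fun P hP => by have := h.le P hP; tauto, fun P hP Q hQ h1 h2 => h.inj P hP Q hQ h2 h1⟩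

theorem Tri.ca (h : Tri S a b c e f A Y G) {P : α} (hP : P ∈ S) : (c P).Coprime (a P) := by
  obtain ⟨x, y, hxy⟩ := Nat.isCoprime_iff_coprime.2 (h.cop P hP)
  exact Nat.isCoprime_iff_coprime.1 ⟨y * f, x - y * f * e, by
    rw [h.eq P hP]; linear_combination hxy + y * b P * h.un.2⟩

theorem Tri.prop (h : Tri S a b c e f A Y G) {P Q : α} (hP : P ∈ S) (hQ : Q ∈ S)
    (h1 : a P * b Q = a Q * b P) : P = Q := by
  have h2 : a P = a Q := Nat.dvd_antisymm ((h.cop P hP).dvd_of_dvd_mul_right ⟨_, h1.symm⟩)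
    ((h.cop Q hQ).dvd_of_dvd_mul_right ⟨_, h1⟩)
  rw [h2] at h1
  exact h.inj P hP Q hQ h2 (Nat.eq_of_mul_eq_mul_left (Nat.pos_of_ne_zero (h.pos Q hQ).1) h1).symm

theorem case1 (h : Tri S a b c e f A Y G) {A' B' D M : ℕ} (hM : D * D < M)
    (H : ∀ P ∈ S, (∃ x y, a P = A' * x ∧ b P = B' * y ∧ x ≤ D ∧ y ≤ D) ∧ M ∣ c P) :
    S.card ≤ 1 := by
  refine card_le_one.2 fun P hP Q hQ => h.prop hP hQ ?_
  obtain ⟨⟨x, y, h1, h2, h3, h4⟩, p, h5⟩ := H P hP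
  obtain ⟨⟨x', y', h1', h2', h3', h4'⟩, q, h5'⟩ := H Q hQ
  have c1 : M.Coprime (A' * B') := Nat.Coprime.coprime_dvd_left ⟨p, h5⟩
    (((h.ca hP).coprime_dvd_right ⟨_, h1⟩).mul_right ((h.swap.ca hP).coprime_dvd_right ⟨_, h2⟩))
  have e1 := h.eq P hP
  have e2 := h.eq Q hQ
  simp only [h1, h2, h5, h1', h2', h5', Nat.cast_mul] at e1 e2
  have c2 : x * y' ≡ x' * y [MOD M] := Nat.ModEq.cancel_left_of_coprime c1
    (Nat.modEq_iff_dvd.2 ⟨e * B' * (q * y - p * y'), by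
      push_cast
      linear_combination e * B' * y' * e1 - e * B' * y * e2 + A' * B' * (x * y' - x' * y) * h.un.1⟩)
  rw [h1, h2, h1', h2', mul_mul_mul_comm, c2.eq_of_lt_of_lt ((Nat.mul_le_mul h3 h4').trans_lt hM)
    ((Nat.mul_le_mul h3' h4).trans_lt hM), mul_mul_mul_comm]

theorem case2 (hp : Par t κ F L u Y G A) (h : Tri S a b c e f A Y G) {B' J m : ℕ} (hJ : t ^ 2 ≤ J)
    (hm : u ≤ m) {s : Finset (Fin t)} {g ρ : Fin t → ℕ} (hg : ∀ j, 1 ≤ g j ∧ g j ≤ G)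
    (H : ∀ P ∈ S, ∃ (n d : ℕ) (r : Fin t → ℕ), b P = B' * d ∧ d ≤ m ^ J ∧ n ≤ m ^ J ∧
      m ^ (2 * (κ * (F * J))) ∣ a P ∧ c P = n * ∏ j ∈ s, r j ^ g j ∧ ∀ j ∈ s, (r j).Prime ∧
        ¬r j ∣ n ∧ r j % m = ρ j ∧ ∀ i ∈ s, r i = r j → i = j) : S.card ≤ u := by
  have u1 : ∀ k ≤ 3 * (t + 2) ^ 2, G ^ k ≤ u := fun k hk =>
    (Nat.pow_le_pow_right (by have := hp.hG; omega) hk).trans hp.hu
  rcases S.eq_empty_or_nonempty with rfl | ⟨P0, hP0⟩
  · simp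
  choose! n d r h1 h2 h3 h4 h5 h6 using H
  have K1 : 1 ≤ t ^ 2 := Nat.one_le_pow _ _ hp.t1
  have T0 : 2 * (κ * (F * J)) ≠ 0 := by
    have : J ≠ 0 := by omega
    have : t ≠ 0 := by have := hp.t1; omega
    rw [hp.hF, hp.hκ]
    positivity
  have hle := (Nat.le_of_dvd (Nat.pos_of_ne_zero (h.pos P0 hP0).1) (h4 P0 hP0)).trans (h.le P0 hP0).1
  have m2 : 2 ≤ m := le_trans (by have := hp.hG; omega) ((pow_one G).ge.trans
    ((u1 1 (Nat.succ_le_of_lt (by positivity))).trans hm))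
  have cm : ∀ P ∈ S, (c P).Coprime m := fun P hP =>
    (h.ca hP).coprime_dvd_right ((dvd_pow_self _ T0).trans (h4 P hP))
  have rc : ∀ P ∈ S, ∀ j ∈ s, r P j ∣ c P := fun P hP j hj => h5 P hP ▸
    ((dvd_pow_self _ (by have := (hg j).1; omega)).trans
      (dvd_prod_of_mem (fun j => r P j ^ g j) hj)).mul_left _
  have rel : ∀ P ∈ S, ∀ Q ∈ S, n P * d Q * ∏ j ∈ s, r P j ^ g j ≡ n Q * d P * ∏ j ∈ s, r Q j ^ g j
      [MOD m ^ (2 * (κ * (F * J)))] := fun P hP Q hQ => by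
    rw [mul_right_comm, mul_right_comm (n Q), ← h5 P hP, ← h5 Q hQ]
    obtain ⟨p, e1⟩ := h4 P hP
    obtain ⟨q, e2⟩ := h4 Q hQ
    refine Nat.modEq_iff_dvd.2 ⟨e * (q * d P - p * d Q), ?_⟩
    rw [Nat.cast_mul, Nat.cast_mul, h.eq P hP, h.eq Q hQ, e1, e2, h1 P hP, h1 Q hQ]
    push_cast
    ring
  have hs : s.card ≤ t := (card_le_univ s).trans_eq (Fintype.card_fin t)
  refine (gt K1 hp.hκ hp.hF hJ ((Nat.pow_le_pow_iff_right (by norm_num)).1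
    ((Nat.pow_le_pow_left m2 _).trans hle)) ((Nat.le_self_pow T0 m).trans hle)
    ((u1 _ (by nlinarith)).trans hm) hp.hG hg _ hs s 1 S n d rfl le_rfl (by have := hp.hG; omega)
    ⟨fun P hP => ⟨(cm P hP).coprime_dvd_left ⟨_, h5 P hP⟩, ?_, h3 P hP, h2 P hP⟩,
      fun P hP j hj => ?_, fun P hP Q hQ => ?_, fun P hP Q hQ => by simpa using rel P hP Q hQ,
      fun P hP Q hQ e1 e2 => h.prop hP hQ ?_⟩).trans ?_
  · exact ((h.cop P hP).symm.coprime_dvd_left (Dvd.intro_left _ (h1 P hP).symm)).coprime_dvd_right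
      ((dvd_pow_self _ T0).trans (h4 P hP))
  · obtain ⟨p1, p2, -, p3⟩ := h6 P hP j hj
    refine ⟨p1, (cm P hP).coprime_dvd_left (rc P hP j hj), ?_, p2, fun h' => p1.not_dvd_one
      ((h.swap.ca hP).gcd_eq_one ▸ Nat.dvd_gcd (rc P hP j hj) (h1 P hP ▸ h'.mul_left _)), p3⟩
    exact (single_le_prod' (f := fun p => p) (fun p hp => Nat.pos_of_mem_primeFactors hp)
      (Nat.mem_primeFactors.2 ⟨p1, rc P hP j hj, (h.pos P hP).2.2⟩)).trans ((h.sub P hP).2.2.trans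
        (hp.Yu.trans (Nat.pow_le_pow_left hm _)))
  · have e1 : ∀ j ∈ s, r P j ≡ r Q j [MOD m] := fun j hj =>
      (h6 P hP j hj).2.2.1.trans (h6 Q hQ j hj).2.2.1.symm
    refine ⟨Nat.ModEq.cancel_right_of_coprime (c := ∏ j ∈ s, r P j ^ g j) ((cm P hP).coprime_dvd_left
      (Dvd.intro_left _ (h5 P hP).symm)).symm (((rel P hP Q hQ).of_dvd (dvd_pow_self _ T0)).trans
        (Nat.ModEq.mul_left _ (Nat.ModEq.prod fun j hj => (e1 j hj).symm.pow _))), e1⟩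
  · have e3 : c P * b Q = c Q * b P := by
      rw [h5 P hP, h5 Q hQ, h1 P hP, h1 Q hQ, prod_congr rfl fun j hj => by rw [e2 j hj]]
      linear_combination B' * (∏ j ∈ s, r Q j ^ g j) * e1
    have e4 := congrArg (Nat.cast : ℕ → ℤ) e3
    rw [Nat.cast_mul, Nat.cast_mul, h.eq P hP, h.eq Q hQ] at e4
    zify
    linear_combination e * e4 - (a P * b Q - a Q * b P) * h.un.1
  · rw [← pow_mul]
    exact u1 _ (by nlinarith)

theorem Par.pw (hp : Par t κ F L u Y G A) {k : ℕ} (hk : k ≤ 3 * (t + 2) ^ 2) : G ^ k ≤ u :=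
  (Nat.pow_le_pow_right (by have := hp.hG; omega) hk).trans hp.hu

theorem Par.G2 (hp : Par t κ F L u Y G A) : G + 1 ≤ G ^ 2 := by
  have := hp.hG
  have := hp.t1
  nlinarith

theorem Par.Gu (hp : Par t κ F L u Y G A) : G + 1 ≤ u :=
  hp.G2.trans (hp.pw (by ring_nf; omega))

theorem Par.u2 (hp : Par t κ F L u Y G A) : 2 ≤ u := by
  have := hp.hG
  have := hp.Gu
  omega

theorem Par.sc (hp : Par t κ F L u Y G A) (k : ℕ) : u ^ k + 1 ≤ u ^ (k + 1) := by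
  have := hp.u2
  have := Nat.one_le_pow k u (by omega)
  rw [pow_succ]
  nlinarith

theorem lev3 (hp : Par t κ F L u Y G A) (h : Tri S a b c e f A Y G) {A' B' σ m : ℕ} (hσ : 1 ≤ σ)
    (hm : u ≤ m) (hm' : m ≤ u ^ 2)
    (H : ∀ P ∈ S, (∃ x y, a P = A' * x ∧ b P = B' * y ∧ x ≤ Y ^ σ ∧ y ≤ Y ^ σ) ∧
      m ^ (2 * (κ * (F * (t ^ 2 * (2 * (3 * t * σ)))))) ∣ a P) : S.card ≤ u ^ (2 * t + 3) := by
  have u2 := hp.u2
  have t1 := hp.t1
  have z2 : u ≤ u ^ t := Nat.le_self_pow (by omega) u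
  have Y2 : 2 ≤ Y := u2.trans (z2.trans hp.uY)
  have tσ : 1 ≤ t * σ := Nat.mul_pos t1 hσ
  have σt : σ ≤ t * σ := Nat.le_mul_of_pos_left _ t1
  have Ym : ∀ k, Y ^ k ≤ m ^ (t ^ 2 * k) := fun k => by
    rw [pow_mul]
    exact Nat.pow_le_pow_left (hp.Yu.trans (Nat.pow_le_pow_left hm _)) _
  refine (two S (fun P => ∃ z, u ^ t ≤ z ∧ z ≤ (u ^ t) ^ 2 ∧ z ^ (3 * t * σ) ∣ c P)
    (fun P => ∃ n w, c P = n * w ∧ n ≤ Y ^ (2 * (3 * t * σ)) ∧ (∀ p, p.Prime → p ∣ n → p ≤ u ^ t) ∧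
      ∀ p, p.Prime → p ∣ w → u ^ t < p) (u ^ (2 * t + 2)) (u ^ (2 * t + 2)) (fun P hP => ?_)
    (fun S' hS H' => ?_) fun S' hS H' => ?_).trans
    (by rw [pow_succ u (2 * t + 2), ← mul_two]; gcongr)
  · obtain ⟨n, w, h1, h2, h3⟩ := sb (u ^ t) (c P) (h.pos P hP).2.2
    rcases le_total n (Y ^ (2 * (3 * t * σ))) with h4 | h4
    · exact Or.inr ⟨n, w, h1, h4, h2, h3⟩
    · obtain ⟨z, z1, z2, z3⟩ := modl (left_ne_zero_of_mul (h1 ▸ (h.pos P hP).2.2))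
        (by rw [mul_assoc]; omega) (u2.trans z2) hp.uY h2 ((prod_le_prod_of_subset_of_one_le'
          (Nat.primeFactors_mono ⟨w, h1⟩ (h.pos P hP).2.2)
          fun p hp _ => Nat.pos_of_mem_primeFactors hp).trans (h.sub P hP).2.2) h4
      exact Or.inl ⟨z, z1, z2, h1 ▸ z3.mul_right _⟩
  · refine (fib S' (range ((u ^ t) ^ 2 + 1)) (fun P z => u ^ t ≤ z ∧ z ^ (3 * t * σ) ∣ c P) 1
      (fun P hP => ?_) fun S'' hS' z _ H'' => ?_).trans ?_
    · obtain ⟨z, z1, z2, z3⟩ := H' P hP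
      exact ⟨z, mem_range.2 (by omega), z1, z3⟩
    · rcases S''.eq_empty_or_nonempty with rfl | ⟨P0, hP0⟩
      · simp
      refine case1 (h.mono (hS'.trans hS)) (D := Y ^ σ) ?_
        fun P hP => ⟨(H P (hS (hS' hP))).1, (H'' P hP).2⟩
      calc _ = Y ^ (2 * σ) := by ring
        _ < Y ^ (3 * σ) := Nat.pow_lt_pow_right Y2 (by omega)
        _ ≤ (u ^ t ^ 2) ^ (3 * σ) := Nat.pow_le_pow_left hp.Yu _
        _ = (u ^ t) ^ (3 * t * σ) := by rw [← pow_mul, ← pow_mul]; ring_nf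
        _ ≤ _ := Nat.pow_le_pow_left (H'' P0 hP0).1 _
    · rw [card_range, mul_one, ← pow_mul, mul_comm]
      exact (hp.sc _).trans (Nat.pow_le_pow_right (by omega) (by omega))
  · refine (fib S' ((univ : Finset (Finset (Fin t))) ×ˢ (Fintype.piFinset fun _ : Fin t =>
      range (G + 1)) ×ˢ Fintype.piFinset fun _ : Fin t => range m)
      (fun P x => (∀ j, 1 ≤ x.2.1 j ∧ x.2.1 j ≤ G) ∧ ∃ (n : ℕ) (r : Fin t → ℕ),
        n ≤ Y ^ (2 * (3 * t * σ)) ∧ c P = n * ∏ j ∈ x.1, r j ^ x.2.1 j ∧ ∀ j ∈ x.1, (r j).Prime ∧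
        ¬r j ∣ n ∧ r j % m = x.2.2 j ∧ ∀ i ∈ x.1, r i = r j → i = j) u
      (fun P hP => ?_) fun S'' hS' x _ H'' => ?_).trans ?_
    · obtain ⟨n, w, h1, h2, h3, h4⟩ := H' P hP
      have c0 := (h.pos P (hS hP)).2.2
      have wc : w ∣ c P := Dvd.intro_left _ h1.symm
      obtain ⟨s, g, r, h5, h6, h7⟩ := atoms (t := t) (right_ne_zero_of_mul (h1 ▸ c0))
        (by have := hp.hG; omega)
        ((Nat.le_of_dvd (Nat.pos_of_ne_zero c0) wc).trans (h.le P (hS hP)).2.2) (by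
          have := (big (Nat.primeFactors_mono wc c0) (fun p => Nat.prime_of_mem_primeFactors)
            fun p hp => (h4 p (Nat.prime_of_mem_primeFactors hp)
              (Nat.dvd_of_mem_primeFactors hp)).le).trans ((h.sub P (hS hP)).2.2.trans hp.Yu)
          rw [← pow_mul, Nat.pow_le_pow_iff_right u2, sq] at this
          exact Nat.le_of_mul_le_mul_left this t1)
      refine ⟨(s, g, fun j => r j % m), by
        simpa [Nat.lt_succ_iff] using ⟨fun j => (h6 j).2, fun j => Nat.mod_lt _ (by omega)⟩,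
        h6, n, r, h2, h5 ▸ h1, fun j hj => ?_⟩
      have p1 := Nat.prime_of_mem_primeFactors (h7 j hj).1
      exact ⟨p1, fun h' => (h3 _ p1 h').not_gt (h4 _ p1 (Nat.dvd_of_mem_primeFactors (h7 j hj).1)),
        rfl, (h7 j hj).2⟩
    · rcases S''.eq_empty_or_nonempty with rfl | ⟨P0, hP0⟩
      · simp
      refine case2 (B' := B') (J := t ^ 2 * (2 * (3 * t * σ))) (ρ := x.2.2) (s := x.1) hp
        (h.mono (hS'.trans hS)) (Nat.le_mul_of_pos_right _ (by rw [mul_assoc]; omega)) hm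
        (H'' P0 hP0).1 fun P hP => ?_
      obtain ⟨⟨-, y, -, h1, -, h2⟩, h3⟩ := H P (hS (hS' hP))
      obtain ⟨-, n, r, h4, h5⟩ := H'' P hP
      exact ⟨n, y, r, h1, (h2.trans (Nat.pow_le_pow_right (by omega)
        (by rw [mul_assoc]; omega))).trans (Ym _), h4.trans (Ym _), h3, h5⟩
    · simp only [card_product, card_univ, Fintype.card_finset, Fintype.card_fin,
        Fintype.card_piFinset, card_range, prod_const]
      calc _ ≤ G ^ t * ((G ^ 2) ^ t * (u ^ 2) ^ t) * u := by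
            have := hp.G2
            have := hp.hG
            gcongr
            omega
        _ = G ^ (3 * t) * u ^ (2 * t + 1) := by ring
        _ ≤ u * u ^ (2 * t + 1) := Nat.mul_le_mul_right _ (hp.pw (by nlinarith))
        _ = _ := by ring

theorem lev2 (hp : Par t κ F L u Y G A) (h : Tri S a b c e f A Y G) {A' B' : ℕ}
    (H : ∀ P ∈ S, ∃ x y, a P = x * A' ∧ b P = y * B' ∧ y ≤ x ∧ ∀ p, p.Prime → p ∣ x → p ≤ u) :
    S.card ≤ u ^ (2 * t + 15) := by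
  have u2 := hp.u2
  have t1 := hp.t1
  have Y2 : u ≤ Y := (Nat.le_self_pow (by omega) u).trans hp.uY
  obtain ⟨Q, eQ⟩ : ∃ Q, Q = 24 * κ * F * t ^ 3 := ⟨_, rfl⟩
  have Q1 : 1 ≤ Q := by
    have : t ≠ 0 := by omega
    rw [eQ, hp.hF, hp.hκ]
    exact Nat.succ_le_of_lt (by positivity)
  have eL : L = t ^ 2 * (2 * Q) * t := by rw [hp.hL, eQ]; ring
  have QL : Y ^ (2 * Q) ≤ u ^ L := by
    refine (Nat.pow_le_pow_left hp.Yu _).trans ?_
    rw [← pow_mul, eL]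
    exact Nat.pow_le_pow_right (by omega) (Nat.le_mul_of_pos_right _ t1)
  obtain ⟨B, B1, B2⟩ := cnt L (eL ▸ Nat.succ_le_of_lt (by positivity)) (Nat.one_le_pow 2 _ t1) hp.pA
    (hp.AY.trans hp.Yu)
  have B3 : B.card ≤ u ^ 4 := B1.trans ((Nat.mul_le_mul (by simpa using hp.sc 1)
    (Nat.mul_le_mul_right _ hp.hC)).trans_eq (show u ^ 2 * (u * u) = _ by ring))
  refine (fib S (range (G + 1) ×ˢ B ×ˢ B ×ˢ range (u ^ 2 + 1))
    (fun P z => (z.1 = 0 ∧ a P = z.2.1 * A' ∧ b P = z.2.2.1 * B') ∨ (1 ≤ z.1 ∧ u ≤ z.2.2.2 ∧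
      (∃ x y, a P = z.2.1 ^ z.1 * A' * x ∧ b P = z.2.2.1 ^ z.1 * B' * y ∧ x ≤ Y ^ z.1 ∧
        y ≤ Y ^ z.1) ∧ z.2.2.2 ^ (2 * (κ * (F * (t ^ 2 * (2 * (3 * t * z.1)))))) ∣ a P))
    (u ^ (2 * t + 3)) (fun P hP => ?_) fun S' hS z hz H' => ?_).trans ?_
  · obtain ⟨x, y, h1, h2, h3, h4⟩ := H P hP
    obtain ⟨a0, b0, -⟩ := h.pos P hP
    obtain ⟨a1, b1, -⟩ := h.sub P hP
    have x0 := left_ne_zero_of_mul (h1 ▸ a0)
    have y0 := left_ne_zero_of_mul (h2 ▸ b0)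
    have x1 := (Nat.primeFactors_mono ⟨_, h1⟩ a0).trans a1
    have y1 := (Nat.primeFactors_mono ⟨_, h2⟩ b0).trans b1
    have YQ : 1 < Y ^ Q := Nat.one_lt_pow (by omega) (by omega)
    have l1 := Nat.pow_log_le_self (Y ^ Q) x0
    have l2 := Nat.lt_pow_succ_log_self YQ x
    generalize Nat.log (Y ^ Q) x = σ at l1 l2
    rcases Nat.eq_zero_or_pos σ with rfl | hσ
    · have : x ≤ u ^ L := l2.le.trans (le_trans (by
        rw [← pow_mul]; exact Nat.pow_le_pow_right (by omega) (by omega)) QL)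
      exact ⟨(0, x, y, 0), by simp [B2 x x0 x1 this, B2 y y0 y1 (h3.trans this)],
        Or.inl ⟨rfl, h1, h2⟩⟩
    have hr : ∀ x : ℕ, x.primeFactors ⊆ A → ∏ p ∈ x.primeFactors, p ≤ Y := fun x hx =>
      (prod_le_prod_of_subset_of_one_le' hx fun p h _ => (hp.pA p h).one_le).trans hp.AY
    have hd : ∀ y, y ≠ 0 → y.primeFactors ⊆ A → y ≤ x →
        ∃ M ∈ B, ∃ d, y = M ^ σ * d ∧ d ≤ Y ^ σ := fun y y0 y1 y2 => by
      obtain ⟨M, d, d1, d2⟩ := dec hσ y0 (hr y y1)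
      have : M ∣ y := d1 ▸ (dvd_pow_self M hσ.ne').mul_right _
      refine ⟨M, B2 M (ne_zero_of_dvd_ne_zero y0 this) ((Nat.primeFactors_mono this y0).trans y1)
        (le_trans ?_ QL), d, d1, d2⟩
      rw [← Nat.pow_le_pow_iff_left hσ.ne', ← pow_mul]
      refine (Nat.le_of_dvd (Nat.pos_of_ne_zero y0) ⟨d, d1⟩).trans (y2.trans (l2.le.trans ?_))
      rw [← pow_mul]
      exact Nat.pow_le_pow_right (by omega) (by rw [Nat.succ_eq_add_one]; nlinarith)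
    obtain ⟨M, M1, d, d1, d2⟩ := hd x x0 x1 le_rfl
    obtain ⟨M', M2, d', d3, d4⟩ := hd y y0 y1 h3
    obtain ⟨m, m1, m2, m3⟩ := modl (θ := 2 * (κ * (F * (t ^ 2 * (2 * (3 * t * σ)))))) x0
      (by
        have := Nat.mul_pos Q1 hσ
        rw [eQ] at this
        linarith) u2 Y2 h4 (hr x x1) (le_trans (by rw [← pow_mul, eQ]; ring_nf; rfl) l1)
    have : σ ≤ G := (Nat.pow_le_pow_iff_right (by norm_num)).1 (((Nat.pow_le_pow_left YQ _).trans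
      l1).trans ((Nat.le_of_dvd (Nat.pos_of_ne_zero a0) ⟨_, h1⟩).trans (h.le P hP).1))
    exact ⟨(σ, M, M', m), by simp [M1, M2, this, m2], Or.inr ⟨hσ, m1,
      ⟨d, d', by rw [h1, d1]; ring, by rw [h2, d3]; ring, d2, d4⟩, h1 ▸ m3.mul_right _⟩⟩
  · obtain ⟨σ, M, M', m⟩ := z
    rcases Nat.eq_zero_or_pos σ with rfl | hσ
    · simp only [true_and, nonpos_iff_eq_zero, one_ne_zero, false_and, or_false] at H'
      exact (card_le_one.2 fun P hP Q hQ => h.inj P (hS hP) Q (hS hQ)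
        ((H' P hP).1.trans (H' Q hQ).1.symm) ((H' P hP).2.trans (H' Q hQ).2.symm)).trans
        (Nat.one_le_pow _ _ (by omega))
    simp only [hσ.ne', false_and, false_or] at H'
    rcases S'.eq_empty_or_nonempty with rfl | ⟨P0, hP0⟩
    · simp
    exact lev3 hp (h.mono hS) hσ (H' P0 hP0).2.1 (by simp at hz; exact hz.2.2.2)
      fun P hP => (H' P hP).2.2
  · simp only [card_product, card_range]
    calc _ ≤ u * (u ^ 4 * (u ^ 4 * u ^ 3)) * u ^ (2 * t + 3) := by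
          have := hp.Gu
          have := hp.sc 2
          gcongr
      _ = _ := by ring

theorem core (hp : Par t κ F L u Y G A) (h : Tri S a b c e f A Y G) : S.card ≤ u ^ (2 * t + 18) := by
  have u2 := hp.u2
  obtain ⟨B, B1, B2⟩ := cntb (A.filter (u ≤ ·)) G
  have B3 : B.card ≤ u := by
    have := (big (filter_subset (u ≤ ·) A) hp.pA fun p hp => (mem_filter.1 hp).2).trans
      (hp.AY.trans hp.Yu)
    rw [Nat.pow_le_pow_iff_right u2] at this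
    refine B1.trans ((Nat.pow_le_pow_left hp.G2 _).trans ?_)
    rw [← pow_mul]
    exact hp.pw ((Nat.mul_le_mul_left 2 this).trans (by ring_nf; omega))
  have B4 : ∀ a, a ≠ 0 → a.primeFactors ⊆ A → a ≤ 2 ^ G →
      ∃ w ∈ B, ∃ x, a = x * w ∧ ∀ p, p.Prime → p ∣ x → p ≤ u := fun a a0 a1 a2 => by
    obtain ⟨x, w, h1, h2, h3⟩ := sb u a a0
    have wa : w ∣ a := Dvd.intro_left _ h1.symm
    have w0 := ne_zero_of_dvd_ne_zero a0 wa
    exact ⟨w, B2 w w0 (fun p hp => mem_filter.2 ⟨a1 (Nat.primeFactors_mono wa a0 hp),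
      (h3 p (Nat.prime_of_mem_primeFactors hp) (Nat.dvd_of_mem_primeFactors hp)).le⟩)
      (facle w0 ((Nat.le_of_dvd (Nat.pos_of_ne_zero a0) wa).trans a2)), x, h1, h2⟩
  refine (fib S (B ×ˢ B) (fun P z => ∃ x y, a P = x * z.1 ∧ b P = y * z.2 ∧
    (∀ p, p.Prime → p ∣ x → p ≤ u) ∧ ∀ p, p.Prime → p ∣ y → p ≤ u)
    (u ^ (2 * t + 15) + u ^ (2 * t + 15)) (fun P hP => ?_) fun S' hS z _ H => ?_).trans ?_
  · obtain ⟨w, h1, x, h2, h3⟩ := B4 _ (h.pos P hP).1 (h.sub P hP).1 (h.le P hP).1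
    obtain ⟨w', h4, y, h5, h6⟩ := B4 _ (h.pos P hP).2.1 (h.sub P hP).2.1 (h.le P hP).2.1
    exact ⟨(w, w'), mem_product.2 ⟨h1, h4⟩, x, y, h2, h5, h3, h6⟩
  · refine two S' _ _ _ _ (fun P hP => ?_)
      (fun S'' hS' => lev2 (A' := z.1) (B' := z.2) hp (h.mono (hS'.trans hS)))
      fun S'' hS' => lev2 (A' := z.2) (B' := z.1) hp (h.mono (hS'.trans hS)).swap
    obtain ⟨x, y, h1, h2, h3, h4⟩ := H P hP
    exact (le_total y x).imp (fun h => ⟨x, y, h1, h2, h, h3⟩) fun h => ⟨y, x, h2, h1, h, h4⟩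
  · rw [card_product, ← two_mul]
    calc _ ≤ u * u * (u * u ^ (2 * t + 15)) := by gcongr
      _ = _ := by ring

end Pool.Agent.P.MP_7aad9f_nt.TR
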