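import Mathlib

/-! Elimination of a variable with the help of new primes. -/

set_option autoImplicit false

namespace Pool.Agent.P.MP_7aad9f_nt.TR

open Finset

theorem cd {β ω : Type} (Mon : Finset β) (Ω : ω → Prop) (E : β → ω → ℕ) (A : ℕ) (K : Finset ℕ)
    (hK : ∀ p ∈ K, p.Prime) (hE : ∀ μ ∈ Mon, ∀ w, Ω w → E μ w ≤ A) (hA : 1 ≤ A)
    (hne : Mon.Nonempty)
    (hc : ∀ p ∈ K, ∃ c : β → ℤ, (∃ μ ∈ Mon, ¬(p : ℤ) ∣ c μ) ∧
      ∀ w, Ω w → (p : ℤ) ∣ ∑ μ ∈ Mon, c μ * E μ w)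
    (hM : (Mon.card * A) ^ Mon.card < ∏ p ∈ K, p) :
    ∃ c : β → ℤ, (∃ μ ∈ Mon, c μ ≠ 0) ∧ (∀ μ ∈ Mon, |c μ| ≤ (∏ p ∈ K, p : ℕ)) ∧
      ∀ w, Ω w → ∑ μ ∈ Mon, c μ * E μ w = 0 := by
  classical
  choose! c hc1 hc2 using hc
  obtain ⟨M, eM⟩ : ∃ M, M = ∏ p ∈ K, p := ⟨_, rfl⟩
  obtain ⟨B, eB⟩ : ∃ B, B = Mon.card * A := ⟨_, rfl⟩
  obtain ⟨v, ev⟩ : ∃ v : β → ℤ, v = fun μ => ∑ p ∈ K, (∏ q ∈ K.erase p, q : ℕ) * c p μ := ⟨_, rfl⟩
  have n0 : 0 < Mon.card := hne.card_pos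
  have B0 : 0 < B := by rw [eB]; positivity
  rw [← eM, ← eB] at hM
  rw [← eM]
  have M0 : 0 < M := lt_of_le_of_lt (Nat.zero_le _) hM
  have M1 : (0 : ℤ) < M := by exact_mod_cast M0
  have v1 : ∀ w, Ω w → (M : ℤ) ∣ ∑ μ ∈ Mon, v μ * E μ w := fun w hw => by
    simp only [ev, sum_mul, mul_assoc]
    rw [sum_comm]
    refine dvd_sum fun p hp => ?_
    rw [← mul_sum, eM, ← prod_erase_mul K _ hp, Nat.cast_mul]
    exact mul_dvd_mul_left _ (hc2 p hp w hw)
  have v2 : ∀ p ∈ K, ∃ μ ∈ Mon, ¬(p : ℤ) ∣ v μ := fun p hp => by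
    obtain ⟨μ, hμ, h⟩ := hc1 p hp
    refine ⟨μ, hμ, fun h' => ?_⟩
    simp only [ev] at h'
    rw [← sum_erase_add K _ hp, dvd_add_right (dvd_sum fun q hq => Dvd.dvd.mul_right
      (Int.natCast_dvd_natCast.2 (dvd_prod_of_mem (fun q => q)
        (mem_erase.2 ⟨(ne_of_mem_erase hq).symm, hp⟩))) _)] at h'
    rcases (Nat.prime_iff_prime_int.1 (hK p hp)).dvd_or_dvd h' with h' | h'
    · obtain ⟨q, hq, h''⟩ := (Prime.dvd_finsetProd_iff (hK p hp).prime _).1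
        (Int.natCast_dvd_natCast.1 h')
      exact ne_of_mem_erase hq
        ((Nat.prime_dvd_prime_iff_eq (hK p hp) (hK q (mem_of_mem_erase hq))).1 h'').symm
    · exact h h'
  have r1 : ∀ z : ℤ, (z % M).toNat < M := fun z => by
    have := Int.emod_lt_of_pos z M1
    omega
  obtain ⟨t, ht, t', ht', hne', he⟩ := exists_ne_map_eq_of_card_lt_of_maps_to
    (s := range M) (t := Fintype.piFinset fun _ : Mon => range B)
    (by simpa using hM) (f := fun t (μ : Mon) => ((t * v μ) % M).toNat * B / M) (fun t _ => by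
      refine mem_coe.2 (Fintype.mem_piFinset.2 fun μ => ?_)
      rw [mem_range, Nat.div_lt_iff_lt_mul M0, mul_comm]
      exact Nat.mul_lt_mul_of_pos_left (r1 _) B0)
  have hb : ∀ μ ∈ Mon, |(t * v μ) % M - (t' * v μ) % M| * B < M := fun μ hμ => by
    have h := congrFun he ⟨μ, hμ⟩
    simp only at h
    have a1 := Nat.div_add_mod (((t * v μ) % M).toNat * B) M
    have a2 := Nat.div_add_mod (((t' * v μ) % M).toNat * B) M
    have a3 := Nat.mod_lt (((t * v μ) % M).toNat * B) M0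
    have a4 := Nat.mod_lt (((t' * v μ) % M).toNat * B) M0
    rw [h] at a1
    rw [← Int.toNat_of_nonneg (Int.emod_nonneg (t * v μ) M1.ne'),
      ← Int.toNat_of_nonneg (Int.emod_nonneg (t' * v μ) M1.ne'), ← Nat.abs_cast (R := ℤ) B,
      ← abs_mul, sub_mul, ← Nat.cast_mul, ← Nat.cast_mul, abs_lt]
    omega
  have hd : ∀ μ, (M : ℤ) ∣ ((t * v μ) % M - (t' * v μ) % M) - (t - t') * v μ := fun μ => by
    have := dvd_sub (Int.dvd_emod_sub_self (x := t * v μ) (m := M))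
      (Int.dvd_emod_sub_self (x := t' * v μ) (m := M))
    exact this.trans (dvd_of_eq (by ring))
  have B1 : (1 : ℤ) ≤ B := by exact_mod_cast B0
  refine ⟨fun μ => (t * v μ) % M - (t' * v μ) % M, ?_, fun μ hμ => ?_, fun w hw => ?_⟩
  · by_contra h
    push Not at h
    have h1 : M ∣ ((t : ℤ) - t').natAbs := by
      rw [eM]
      refine prod_primes_dvd _ (fun p hp => (hK p hp).prime) fun p hp => ?_
      obtain ⟨μ, hμ, h'⟩ := v2 p hp
      have h2 := hd μ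
      rw [h μ hμ, zero_sub, dvd_neg] at h2
      have h3 : (p : ℤ) ∣ M := Int.natCast_dvd_natCast.2 (eM ▸ dvd_prod_of_mem _ hp)
      exact Int.natCast_dvd.1
        (((Nat.prime_iff_prime_int.1 (hK p hp)).dvd_or_dvd (h3.trans h2)).resolve_right h')
    have := Nat.le_of_dvd (by omega) h1
    rw [mem_range] at ht ht'
    omega
  · exact ((le_mul_of_one_le_right (abs_nonneg _) B1).trans_lt (hb μ hμ)).le
  · refine Int.eq_zero_of_abs_lt_dvd (m := M) ?_ ?_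
    · have := dvd_add (dvd_sum fun μ (_ : μ ∈ Mon) => (hd μ).mul_right (E μ w))
        ((v1 w hw).mul_left (t - t'))
      rw [mul_sum, ← sum_add_distrib] at this
      exact this.trans (dvd_of_eq (sum_congr rfl fun μ _ => by ring))
    · have h1 : ∀ μ ∈ Mon, |((t * v μ) % M - (t' * v μ) % M) * E μ w| * Mon.card ≤ M - 1 :=
        fun μ hμ => by
          have a1 := hb μ hμ
          have a2 : (E μ w : ℤ) * Mon.card ≤ B := by
            rw [eB, mul_comm]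
            exact_mod_cast Nat.mul_le_mul_left _ (hE μ hμ w hw)
          rw [abs_mul, Nat.abs_cast, mul_assoc]
          exact Int.le_sub_one_of_lt ((mul_le_mul_of_nonneg_left a2 (abs_nonneg _)).trans_lt a1)
      have h2 := sum_le_card_nsmul _ _ _ h1
      rw [← sum_mul, nsmul_eq_mul, mul_comm (Mon.card : ℤ)] at h2
      have h3 := le_of_mul_le_mul_right h2 (by exact_mod_cast n0)
      exact (abs_sum_le_sum_abs _ _).trans_lt (h3.trans_lt (by omega))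

/-- a linear relation between monomials on all words of length `l` -/
def Rel {α β : Type} (S : Finset α) (ev : β → α → ℕ) (Mon : Finset β) (l C : ℕ) : Prop :=
  ∃ c : β → ℤ, (∃ μ ∈ Mon, c μ ≠ 0) ∧ (∀ μ ∈ Mon, |c μ| ≤ C) ∧
    ∀ w : List α, w.length = l ∧ (∀ P ∈ w, P ∈ S) →
      ∑ μ ∈ Mon, c μ * ((w.map (ev μ)).prod : ℕ) = 0

theorem elim {α β : Type} (S : Finset α) (ev : β → α → ℕ) (Mon : Finset β) (l : ℕ) (π : α → ℕ)
    (deg : β → ℕ) (n a y N : ℕ) (hn : Mon.card ≤ n) (hA : ∀ μ ∈ Mon, ∀ P ∈ S, ev μ P ≤ 2 ^ a)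
    (hπ : ∀ P ∈ S, (π P).Prime ∧ π P ≤ 2 ^ y ∧ ∀ μ ∈ Mon, ∃ z, ev μ P = π P ^ deg μ * z ∧
      ¬π P ∣ z)
    (hN : (n + a * l) * n < N) (hS : N + y * N ≤ (S.image π).card)
    (h : Rel S ev Mon (l + 1) (2 ^ (y * N))) :
    ∃ e, Rel S ev (Mon.filter fun μ => deg μ = e) l (2 ^ (y * N)) := by
  classical
  obtain ⟨c, hc0, hc1, hc2⟩ := h
  obtain ⟨μ0, hμ0, hmin⟩ := exists_min_image (Mon.filter fun μ => c μ ≠ 0) deg
    (hc0.imp fun μ h => mem_filter.2 h)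
  obtain ⟨m1, m2⟩ := mem_filter.1 hμ0
  have hP : ∀ p ∈ S.image π, p.Prime ∧ p ≤ 2 ^ y := fun p hp => by
    obtain ⟨P, hP, rfl⟩ := mem_image.1 hp
    exact ⟨(hπ P hP).1, (hπ P hP).2.1⟩
  have hbad : ((S.image π).filter fun p : ℕ => (p : ℤ) ∣ c μ0).card ≤ y * N := by
    rw [← Nat.pow_le_pow_iff_right (show 1 < 2 by norm_num)]
    refine (pow_card_le_prod _ (fun p => p) _ fun p hp =>
      (hP p (mem_filter.1 hp).1).1.two_le).trans ?_
    refine (Nat.le_of_dvd (Int.natAbs_pos.2 m2) (prod_primes_dvd _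
      (fun p hp => (hP p (mem_filter.1 hp).1).1.prime)
      fun p hp => Int.natCast_dvd.1 (mem_filter.1 hp).2)).trans ?_
    have := hc1 μ0 m1
    rw [Int.abs_eq_natAbs] at this
    exact_mod_cast this
  have hsum := card_filter_add_card_filter_not (s := S.image π) fun p : ℕ => (p : ℤ) ∣ c μ0
  obtain ⟨K, hK, hKc⟩ := exists_subset_card_eq
    (show N ≤ ((S.image π).filter fun p : ℕ => ¬(p : ℤ) ∣ c μ0).card by omega)
  have hKP : ∀ p ∈ K, p.Prime ∧ p ≤ 2 ^ y := fun p hp => hP p (mem_filter.1 (hK hp)).1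
  have hm : μ0 ∈ Mon.filter fun μ => deg μ = deg μ0 := mem_filter.2 ⟨m1, rfl⟩
  have hcard : (Mon.filter fun μ => deg μ = deg μ0).card ≤ n := (card_filter_le _ _).trans hn
  obtain ⟨c', h1, h2, h3⟩ := cd (Mon.filter fun μ => deg μ = deg μ0)
    (fun w : List α => w.length = l ∧ ∀ P ∈ w, P ∈ S) (fun μ w => (w.map (ev μ)).prod)
    (2 ^ (a * l)) K (fun p hp => (hKP p hp).1)
    (fun μ hμ w hw => by
      have := List.prod_le_pow_card (w.map (ev μ)) (2 ^ a) fun x hx => by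
        obtain ⟨P, hP, rfl⟩ := List.mem_map.1 hx
        exact hA μ (mem_filter.1 hμ).1 P (hw.2 P hP)
      rwa [List.length_map, hw.1, ← pow_mul] at this)
    Nat.one_le_two_pow ⟨_, hm⟩
    (fun p hp => by
      obtain ⟨hp1, hp2⟩ := mem_filter.1 (hK hp)
      obtain ⟨P, hPS, rfl⟩ := mem_image.1 hp1
      obtain ⟨q1, -, q2⟩ := hπ P hPS
      choose! z hz1 hz2 using q2
      have q3 := Nat.prime_iff_prime_int.1 q1
      refine ⟨fun μ => c μ * z μ, ⟨μ0, hm, fun h => (q3.dvd_or_dvd h).elim hp2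
        fun h => hz2 μ0 m1 (Int.natCast_dvd_natCast.1 h)⟩, fun w hw => ?_⟩
      have a1 := hc2 (P :: w) ⟨by simp [hw.1], by simpa [hPS] using hw.2⟩
      rw [← sum_filter_add_sum_filter_not Mon fun μ => deg μ = deg μ0] at a1
      have a2 : (π P : ℤ) ^ (deg μ0 + 1) ∣ ∑ μ ∈ Mon.filter fun μ => ¬deg μ = deg μ0,
          c μ * (((P :: w).map (ev μ)).prod : ℕ) := dvd_sum fun μ hμ => by
        obtain ⟨b1, b2⟩ := mem_filter.1 hμ
        by_cases b3 : c μ = 0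
        · simp [b3]
        · have := hmin μ (mem_filter.2 ⟨b1, b3⟩)
          rw [List.map_cons, List.prod_cons, hz1 μ b1]
          push_cast
          exact (((pow_dvd_pow _ (by omega)).mul_right _).mul_right _).mul_left _
      rw [eq_neg_of_add_eq_zero_right a1, dvd_neg, sum_congr rfl fun μ hμ => show _ =
        (π P : ℤ) ^ deg μ0 * (c μ * z μ * ((w.map (ev μ)).prod : ℕ)) by
          rw [List.map_cons, List.prod_cons, hz1 μ (mem_filter.1 hμ).1, (mem_filter.1 hμ).2]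
          push_cast
          ring, ← mul_sum, pow_succ] at a2
      exact (mul_dvd_mul_iff_left (pow_ne_zero _ q3.ne_zero)).1 a2)
    (by
      refine lt_of_lt_of_le ?_ (pow_card_le_prod _ (fun p => p) _ fun p hp => (hKP p hp).1.two_le)
      rw [hKc]
      refine lt_of_le_of_lt ?_ (Nat.pow_lt_pow_right (by norm_num) hN)
      rw [pow_mul 2 (n + a * l), pow_add]
      exact (Nat.pow_le_pow_left (Nat.mul_le_mul_right _ (hcard.trans Nat.lt_two_pow_self.le)) _).trans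
        (Nat.pow_le_pow_right (by positivity) hcard))
  refine ⟨_, c', h1, fun μ hμ => (h2 μ hμ).trans (Nat.cast_le.2 ?_), h3⟩
  rw [pow_mul, ← hKc]
  exact prod_le_pow_card _ _ _ fun p hp => (hKP p hp).2

theorem elims {α β ι : Type} (S : Finset α) (ev : β → α → ℕ) (Mon : Finset β) (π : α → ι → ℕ)
    (deg : β → ι → ℕ) (n a y N L : ℕ) (hn : Mon.card ≤ n)
    (hA : ∀ μ ∈ Mon, ∀ P ∈ S, ev μ P ≤ 2 ^ a) (hN : (n + a * L) * n < N) (s : Finset ι)
    (hπ : ∀ j ∈ s, N + y * N ≤ (S.image (π · j)).card ∧ ∀ P ∈ S, (π P j).Prime ∧ π P j ≤ 2 ^ y ∧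
      ∀ μ ∈ Mon, ∃ z, ev μ P = π P j ^ deg μ j * z ∧ ¬π P j ∣ z) :
    ∀ l, s.card + l ≤ L → Rel S ev Mon (s.card + l) (2 ^ (y * N)) → ∃ Mon' ⊆ Mon,
      (∀ μ ∈ Mon', ∀ ν ∈ Mon', ∀ j ∈ s, deg μ j = deg ν j) ∧ Rel S ev Mon' l (2 ^ (y * N)) := by
  classical
  induction s using Finset.induction_on with
  | empty => exact fun l _ h => ⟨Mon, Subset.rfl, by simp, by simpa using h⟩
  | insert i s hi ih =>
    intro l hl h
    rw [card_insert_of_notMem hi, add_assoc, add_comm 1] at h hl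
    obtain ⟨M, h1, h2, h3⟩ := ih (fun j hj => hπ j (mem_insert_of_mem hj)) (l + 1) hl h
    obtain ⟨h4, h5⟩ := hπ i (mem_insert_self _ _)
    obtain ⟨e, he⟩ := elim S ev M l (π · i) (deg · i) n a y N ((card_le_card h1).trans hn)
      (fun μ hμ => hA μ (h1 hμ))
      (fun P hP => ⟨(h5 P hP).1, (h5 P hP).2.1, fun μ hμ => (h5 P hP).2.2 μ (h1 hμ)⟩)
      (lt_of_le_of_lt (by gcongr; omega) hN) h4 h3
    refine ⟨_, (filter_subset _ _).trans h1, fun μ hμ ν hν j hj => ?_, he⟩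
    rcases mem_insert.1 hj with rfl | hj
    · exact (mem_filter.1 hμ).2.trans (mem_filter.1 hν).2.symm
    · exact h2 μ (mem_filter.1 hμ).1 ν (mem_filter.1 hν).1 j hj

end Pool.Agent.P.MP_7aad9f_nt.TR
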