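import Pool.Agent.P.MP_7aad9f_nt.TR.Core
import Pool.Agent.P.MP_7aad9f_nt.SubFinal

/-! Choice of the parameters. -/

set_option autoImplicit false

namespace Pool.Agent.P.MP_7aad9f_nt.TR

open Finset

theorem signs {t κ F L u Z G n Y : ℕ} (hp : Par t κ F L u Z G n.primeFactors) (hn : 1 ≤ n)
    (hZ : n * Y ≤ Z) (H : ∀ a b c : ℕ, 0 < a → 0 < b → a.Coprime b → a + b = c →
      ∏ p ∈ (a * b * c).primeFactors, p ≤ Z → c ≤ 2 ^ G) (S : Finset (ℤ × ℤ))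
    (hS : ∀ P ∈ S, P.1 ≠ 0 ∧ P.2 ≠ 0 ∧ P.1 + P.2 ≠ 0 ∧ IsCoprime P.1 P.2 ∧
      (P.1 * P.2).natAbs.primeFactors ⊆ n.primeFactors ∧
      ∏ p ∈ (P.1 + P.2).natAbs.primeFactors, p ≤ Y) : S.card ≤ 8 * u ^ (2 * t + 18) := by
  have sg : ∀ x : ℤ, ∃ s ∈ ({1, -1} : Finset ℤ), x = s * x.natAbs := fun x => by
    simpa using Int.natAbs_eq x
  refine fib S ({1, -1} ×ˢ {1, -1} ×ˢ ({1, -1} : Finset ℤ)) (fun P s => P.1 = s.1 * P.1.natAbs ∧
    P.2 = s.2.1 * P.2.natAbs ∧ P.1 + P.2 = s.2.2 * (P.1 + P.2).natAbs) _ (fun P _ => ?_)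
    fun S' hS' s hs H' => core (a := fun P => P.1.natAbs) (b := fun P => P.2.natAbs)
      (c := fun P => (P.1 + P.2).natAbs) (e := s.2.2 * s.1) (f := s.2.2 * s.2.1) hp ?_
  · obtain ⟨s1, h1, h2⟩ := sg P.1
    obtain ⟨s2, h3, h4⟩ := sg P.2
    obtain ⟨s3, h5, h6⟩ := sg (P.1 + P.2)
    exact ⟨(s1, s2, s3), mem_product.2 ⟨h1, mem_product.2 ⟨h3, h5⟩⟩, h2, h4, h6⟩
  have sq : ∀ s ∈ ({1, -1} : Finset ℤ), s * s = 1 := by simp
  obtain ⟨s1, s2⟩ := mem_product.1 hs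
  obtain ⟨s2, s3⟩ := mem_product.1 s2
  have s1 := sq _ s1
  have s2 := sq _ s2
  have s3 := sq _ s3
  refine ⟨⟨by linear_combination s.1 * s.1 * s3 + s1, by linear_combination s.2.1 * s.2.1 * s3 + s2⟩,
    fun P hP => ?_, fun P hP => Int.isCoprime_iff_gcd_eq_one.1 (hS P (hS' hP)).2.2.2.1,
    fun P hP => ?_, fun P hP => ?_, fun P hP => ?_, fun P hP Q hQ h1 h2 => Prod.ext ?_ ?_⟩
  · obtain ⟨h1, h2, h3, -⟩ := hS P (hS' hP)
    simp [h1, h2, h3]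
  · obtain ⟨h1, h2, h3⟩ := H' P hP
    linear_combination s.2.2 * (h1 + h2 - h3) - ((P.1 + P.2).natAbs : ℤ) * s3
  · obtain ⟨h1, h2, -, -, h3, h4⟩ := hS P (hS' hP)
    rw [Int.natAbs_mul, Nat.primeFactors_mul (by simpa) (by simpa), union_subset_iff] at h3
    exact ⟨h3.1, h3.2, h4.trans ((Nat.le_mul_of_pos_left _ hn).trans hZ)⟩
  · obtain ⟨h1, h2, h3, h4, h5, h6⟩ := hS P (hS' hP)
    have h7 : ∏ p ∈ (P.1.natAbs * P.2.natAbs * (P.1 + P.2).natAbs).primeFactors, p ≤ Z := by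
      rw [← Int.natAbs_mul, Nat.primeFactors_mul (by simp [h1, h2]) (by simpa)]
      refine le_trans ?_ ((Nat.mul_le_mul ((prod_le_prod_of_subset_of_one_le' h5
        fun p hp _ => Nat.pos_of_mem_primeFactors hp).trans
        (Nat.le_of_dvd hn (Nat.prod_primeFactors_dvd n))) h6).trans hZ)
      rw [← prod_union_inter]
      exact Nat.le_mul_of_pos_right _
        (prod_pos fun p hp => Nat.pos_of_mem_primeFactors (mem_inter.1 hp).1)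
    have c1 : P.1.natAbs.Coprime P.2.natAbs := Int.isCoprime_iff_gcd_eq_one.1 h4
    have c2 : P.1.natAbs.Coprime (P.1 + P.2).natAbs :=
      Int.isCoprime_iff_gcd_eq_one.1 (by simpa [add_comm] using h4.add_mul_left_right 1)
    have c3 : P.2.natAbs.Coprime (P.1 + P.2).natAbs :=
      Int.isCoprime_iff_gcd_eq_one.1 (by simpa using h4.symm.add_mul_left_right 1)
    have c4 : P.1.natAbs + P.2.natAbs = (P.1 + P.2).natAbs ∨ P.1.natAbs + (P.1 + P.2).natAbs =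
      P.2.natAbs ∨ P.2.natAbs + (P.1 + P.2).natAbs = P.1.natAbs := by omega
    rcases c4 with c4 | c4 | c4
    · have := H _ _ _ (by omega) (by omega) c1 c4 h7
      omega
    · have := H _ _ _ (by omega) (by omega) c2 c4 (by rwa [mul_right_comm])
      omega
    · have := H _ _ _ (by omega) (by omega) c3 c4 (by rwa [mul_comm, ← mul_assoc])
      omega
  · rw [(H' P hP).1, (H' Q hQ).1, h1]
  · rw [(H' P hP).2.1, (H' Q hQ).2.1, h2]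

theorem main (ε : ℝ) (hε : 0 < ε) : ∃ C : ℝ, ∀ (n Y : ℕ) (S : Finset (ℤ × ℤ)), 1 ≤ n →
    (∀ P ∈ S, P.1 ≠ 0 ∧ P.2 ≠ 0 ∧ P.1 + P.2 ≠ 0 ∧ IsCoprime P.1 P.2 ∧
      (P.1 * P.2).natAbs.primeFactors ⊆ n.primeFactors ∧
      ∏ p ∈ (P.1 + P.2).natAbs.primeFactors, p ≤ Y) →
    (S.card : ℝ) ≤ C * ((n : ℝ) * Y) ^ ε := by
  obtain ⟨t0, ht0⟩ := exists_nat_ge (40 / ε)
  obtain ⟨t, et⟩ : ∃ t, t = t0 + 2 := ⟨_, rfl⟩
  obtain ⟨c, ec⟩ : ∃ c, c = 3 * (t + 2) ^ 2 := ⟨_, rfl⟩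
  obtain ⟨N, eN⟩ : ∃ N, N = 2 * c * t ^ 2 := ⟨_, rfl⟩
  obtain ⟨κ, eκ⟩ : ∃ κ, κ = 2 * (t + 1) ^ 2 * t ^ 2 := ⟨_, rfl⟩
  obtain ⟨F, eF⟩ : ∃ F, F = 2 * (2 * κ) ^ t := ⟨_, rfl⟩
  obtain ⟨L, eL⟩ : ∃ L, L = 48 * κ * F * t ^ 6 := ⟨_, rfl⟩
  have c0 : c ≠ 0 := by rw [ec]; positivity
  have N0 : N ≠ 0 := by rw [eN, et]; positivity
  obtain ⟨K, hK⟩ := Sub.main_final (N : ℝ)⁻¹ (by positivity)
  obtain ⟨k, hk⟩ := exists_nat_ge (2 * |K|)
  obtain ⟨W, eW⟩ : ∃ W, W = (L + 1) ^ (L + 1) ^ t ^ 2 + t + k + 2 := ⟨_, rfl⟩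
  have W1 : 1 ≤ W ^ N := Nat.one_le_pow _ _ (by omega)
  refine ⟨8 * ((W ^ N : ℕ) : ℝ) ^ ε, fun n Y S hn hS => ?_⟩
  rcases S.eq_empty_or_nonempty with rfl | ⟨P0, hP0⟩
  · simp only [card_empty, Nat.cast_zero]
    positivity
  have Y1 : 1 ≤ Y := le_trans (prod_pos fun p hp => Nat.pos_of_mem_primeFactors hp)
    (hS P0 hP0).2.2.2.2.2
  obtain ⟨Z, eZ⟩ : ∃ Z, Z = W ^ N * (n * Y) := ⟨_, rfl⟩
  have Z1 : n * Y ≤ Z := eZ ▸ Nat.le_mul_of_pos_left _ W1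
  have v1 := Nat.pow_nthRoot_le (n := N) (a := Z) (Or.inl N0)
  have v2 := Nat.lt_pow_nthRoot_add_one N0 Z
  generalize N.nthRoot Z = v at v1 v2
  have v3 : W ≤ v := Nat.le_of_lt_succ (lt_of_pow_lt_pow_left₀ N (by omega)
    (lt_of_le_of_lt (eZ ▸ Nat.le_mul_of_pos_right _ (Nat.mul_pos hn Y1)) v2))
  have v4 : v + 1 ≤ v ^ 2 := by nlinarith [show 2 ≤ v by omega]
  have v5 : v + 1 ≤ (v + 1) ^ 2 := Nat.le_self_pow (by norm_num) _
  have h1 := signs (t := t) (u := (v + 1) ^ (2 * c)) (G := (v + 1) ^ 2) (Z := Z)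
    ⟨by omega, eκ, eF, eL, by omega, by rw [← pow_mul, ec],
      le_trans (by omega) (Nat.le_self_pow (by omega) _), by
        refine le_trans ?_ v1
        rw [← pow_mul, eN, sq, ← mul_assoc, mul_comm _ t, mul_comm _ t, pow_mul v]
        exact Nat.pow_le_pow_left (v4.trans (Nat.pow_le_pow_right (by omega) (by omega))) _,
      by rw [← pow_mul, ← eN]; exact v2.le, fun p => Nat.prime_of_mem_primeFactors,
      (Nat.le_of_dvd hn (Nat.prod_primeFactors_dvd n)).trans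
        ((Nat.le_mul_of_pos_right _ Y1).trans Z1)⟩ hn Z1
    (fun a b c ha hb hab e hr => by
      have h1 := hK a b c ha hb hab e
      have h2 : ((Sub.rad (a * b * c) : ℕ) : ℝ) ^ (N : ℝ)⁻¹ ≤ (v + 1 : ℕ) := by
        rw [← Real.pow_rpow_inv_natCast (Nat.cast_nonneg (v + 1)) N0]
        exact Real.rpow_le_rpow (Nat.cast_nonneg _) (by exact_mod_cast hr.trans v2.le)
          (by positivity)
      have h3 : (k : ℝ) ≤ (v + 1 : ℕ) := Nat.cast_le.2 (by omega)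
      have h4 := Real.log_two_gt_d9
      rw [← Nat.cast_le (α := ℝ), ← Real.log_le_log_iff (Nat.cast_pos.2 (by omega)) (by positivity),
        Nat.cast_pow, Real.log_pow, Nat.cast_pow, Nat.cast_ofNat]
      refine h1.trans ((mul_le_mul (le_abs_self K) h2 (by positivity) (abs_nonneg K)).trans ?_)
      have h5 : (0 : ℝ) ≤ (v + 1 : ℕ) := Nat.cast_nonneg _
      generalize ((v + 1 : ℕ) : ℝ) = w at h3 h5
      nlinarith [mul_nonneg h5 h5, mul_le_mul_of_nonneg_right (hk.trans h3) h5]) S hS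
  have h2 : ((v + 1) ^ (2 * c)) ^ (2 * t + 18) ≤ v ^ (2 * (2 * c * (2 * t + 18))) := by
    rw [← pow_mul, pow_mul v]
    exact Nat.pow_le_pow_left v4 _
  have h3 : ((v ^ (2 * (2 * c * (2 * t + 18))) : ℕ) : ℝ) ≤ (Z : ℝ) ^ ε := by
    refine le_trans ?_ (Real.rpow_le_rpow (Nat.cast_nonneg _) (Nat.cast_le.2 v1) hε.le)
    rw [Nat.cast_pow, Nat.cast_pow, ← Real.rpow_natCast, ← Real.rpow_natCast,
      ← Real.rpow_mul (Nat.cast_nonneg _)]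
    refine Real.rpow_le_rpow_of_exponent_le (Nat.one_le_cast.2 (by omega)) ?_
    rw [div_le_iff₀ hε] at ht0
    have t1 : (t0 : ℝ) + 2 = t := by rw [et]; push_cast; ring
    have t2 : (0 : ℝ) ≤ t0 := Nat.cast_nonneg _
    have t3 : 2 * (2 * (t : ℝ) + 18) ≤ t ^ 2 * ε := by nlinarith
    rw [eN]
    push_cast
    nlinarith [mul_le_mul_of_nonneg_left t3 (Nat.cast_nonneg (α := ℝ) c)]
  rw [mul_assoc, ← Real.mul_rpow (by positivity) (by positivity), ← Nat.cast_mul, ← Nat.cast_mul,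
    ← eZ]
  refine le_trans ?_ (mul_le_mul_of_nonneg_left h3 (by norm_num))
  exact_mod_cast h1.trans (Nat.mul_le_mul_left _ h2)

end Pool.Agent.P.MP_7aad9f_nt.TR
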