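import Mathlib

/-! Auxiliary polynomial, parametrisation of a subtorus, roots of one-units. -/

set_option autoImplicit false

namespace Pool.Agent.P.MP_7aad9f_nt.TR

open Finset

attribute [local instance] Matrix.seminormedAddCommGroup

theorem sieg {β κ : Type} [Fintype κ] (Mon : Finset β) (a : κ → β → ℤ) (X : ℕ) (hX : 1 ≤ X)
    (ha : ∀ k, ∀ μ ∈ Mon, |a k μ| ≤ X) (h0 : 0 < Fintype.card κ)
    (hc : 2 * Fintype.card κ ≤ Mon.card) :
    ∃ c : β → ℤ, (∃ μ ∈ Mon, c μ ≠ 0) ∧ (∀ μ ∈ Mon, |c μ| ≤ (Mon.card * X : ℕ)) ∧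
      ∀ k, ∑ μ ∈ Mon, c μ * a k μ = 0 := by
  classical
  let A : Matrix κ Mon ℤ := fun k μ => a k μ
  have hn : Fintype.card Mon = Mon.card := Fintype.card_coe _
  obtain ⟨t, ht0, ht1, ht2⟩ := Int.Matrix.exists_ne_zero_int_vec_norm_le A (by omega) h0
  have hX' : (1 : ℝ) ≤ X := by exact_mod_cast hX
  have hA : ‖A‖ ≤ (X : ℝ) := by
    rw [Matrix.norm_le_iff (by positivity)]
    intro k μ
    rw [Int.norm_eq_abs]
    exact_mod_cast ha k μ μ.2
  have hnorm : ‖t‖ ≤ (Mon.card : ℝ) * X := by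
    refine ht2.trans ?_
    rw [hn]
    have hn1 : (1 : ℝ) ≤ Mon.card := by exact_mod_cast (by omega : 1 ≤ Mon.card)
    have hb : (1 : ℝ) ≤ Mon.card * max 1 ‖A‖ :=
      one_le_mul_of_one_le_of_one_le hn1 (le_max_left _ _)
    have h8 : (2 : ℝ) * Fintype.card κ ≤ Mon.card := by exact_mod_cast hc
    have h9 : (0 : ℝ) < Fintype.card κ := by exact_mod_cast h0
    have he : (Fintype.card κ : ℝ) / (Mon.card - Fintype.card κ) ≤ 1 := by
      rw [div_le_one (by linarith)]; linarith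
    refine (Real.rpow_le_rpow_of_exponent_le hb he).trans ?_
    rw [Real.rpow_one]
    exact mul_le_mul_of_nonneg_left (max_le hX' hA) (by linarith)
  refine ⟨fun z => if h : z ∈ Mon then t ⟨z, h⟩ else 0, ?_, fun z h => ?_, fun k => ?_⟩
  · obtain ⟨z, hz⟩ := Function.ne_iff.1 ht0
    exact ⟨z, z.2, by simpa [z.2] using hz⟩
  · have h10 := (norm_le_pi_norm t ⟨z, h⟩).trans hnorm
    rw [Int.norm_eq_abs] at h10
    simp only [dif_pos h]
    exact_mod_cast h10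
  · have h10 := congrFun ht1 k
    rw [← sum_coe_sort]
    simp only [Matrix.mulVec, dotProduct, A, Pi.zero_apply] at h10
    rw [← h10]
    exact sum_congr rfl fun z _ => by simp only [z.2, dif_pos, mul_comm]

theorem binom {R : Type} [CommRing R] {τ : R} {T : ℕ} (h : (τ - 1) ^ T = 0) (E : ℕ) :
    τ ^ E = ∑ j : Fin T, (E.choose j : R) * (τ - 1) ^ (j : ℕ) := by
  rw [Fin.sum_univ_eq_sum_range fun j => (E.choose j : R) * (τ - 1) ^ j]
  have h1 : τ ^ E = ∑ j ∈ range (E + 1), (E.choose j : R) * (τ - 1) ^ j := by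
    conv_lhs => rw [← sub_add_cancel τ 1, add_pow]
    exact sum_congr rfl fun j _ => by rw [one_pow, mul_one, mul_comm]
  rw [h1, sum_subset (range_mono (Nat.le_add_right (E + 1) T)) fun j _ hj => ?_,
    sum_subset (range_mono (Nat.le_add_left T (E + 1))) fun j _ hj => ?_]
  · rw [pow_eq_zero_of_le (by simpa using hj) h, mul_zero]
  · rw [Nat.choose_eq_zero_of_lt (by simpa using hj), Nat.cast_zero, zero_mul]

theorem aux {β ι : Type} (s : Finset ι) (Mon : Finset β) (E : β → ι → ℕ) (T X : ℕ) (hT : 1 ≤ T)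
    (hX : 1 ≤ X) (hE : ∀ μ ∈ Mon, ∀ k ∈ s, E μ k ≤ X) (hc : 2 * T ^ s.card ≤ Mon.card) :
    ∃ c : β → ℤ, (∃ μ ∈ Mon, c μ ≠ 0) ∧
      (∀ μ ∈ Mon, |c μ| ≤ (Mon.card * X ^ (T * s.card) : ℕ)) ∧
      ∀ (R : Type) [CommRing R] (τ : ι → R), (∀ k ∈ s, (τ k - 1) ^ T = 0) →
        ∑ μ ∈ Mon, (c μ : R) * ∏ k ∈ s, τ k ^ E μ k = 0 := by
  classical
  have hk : Fintype.card (s → Fin T) = T ^ s.card := by simp
  obtain ⟨c, h1, h2, h3⟩ := sieg Mon
    (fun (κ : s → Fin T) μ => ((∏ k : s, (E μ k).choose (κ k) : ℕ) : ℤ)) (X ^ (T * s.card))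
    (Nat.one_le_pow _ _ hX) (fun κ μ hμ => by
      rw [Nat.abs_cast, Nat.cast_le, pow_mul, ← Fintype.card_coe s, ← card_univ]
      refine prod_le_pow_card _ _ _ fun k _ => (Nat.choose_le_pow _ _).trans ?_
      exact (Nat.pow_le_pow_left (hE μ hμ k k.2) _).trans
        (Nat.pow_le_pow_right hX (κ k).2.le))
    (by rw [hk]; exact Nat.pow_pos hT) (by rwa [hk])
  refine ⟨c, h1, h2, fun R _ τ hτ => ?_⟩
  have h4 : ∀ μ, ∏ k ∈ s, τ k ^ E μ k = ∑ κ : s → Fin T,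
      ((∏ k : s, (E μ k).choose (κ k) : ℕ) : R) * ∏ k : s, (τ k - 1) ^ (κ k : ℕ) := fun μ => by
    rw [← prod_coe_sort s, prod_congr rfl fun (k : s) _ => binom (hτ k k.2) (E μ k),
      prod_univ_sum, Fintype.piFinset_univ]
    exact sum_congr rfl fun κ _ => by rw [prod_mul_distrib, Nat.cast_prod]
  simp only [h4, mul_sum]
  rw [sum_comm]
  refine sum_eq_zero fun κ _ => ?_
  have := congrArg (Int.cast : ℤ → R) (h3 κ)
  simp only [Int.cast_sum, Int.cast_mul, Int.cast_natCast, Int.cast_zero] at this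
  simp only [← mul_assoc]
  rw [← sum_mul, this, zero_mul]

theorem root {R : Type} [CommRing R] {m u : R} {T d : ℕ} (hm : m ^ T = 0) (hu : m ∣ u - 1)
    (hd : u ^ d = 1) : (d : R) ^ T * (u - 1) = 0 := by
  have h1 : m ∣ ∑ i ∈ range d, u ^ i - d := by
    have : ∑ i ∈ range d, u ^ i - d = ∑ i ∈ range d, (u ^ i - 1 ^ i) := by simp
    rw [this]
    exact dvd_sum fun i _ => hu.trans (sub_dvd_pow_sub_pow u 1 i)
  obtain ⟨w, hw⟩ := h1
  have h2 := geom_sum_mul u d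
  rw [hd, sub_self, eq_add_of_sub_eq hw] at h2
  have h3 : ∀ j : ℕ, (d : R) ^ j * (u - 1) = (-(m * w)) ^ j * (u - 1) := fun j => by
    induction j with
    | zero => simp
    | succ j ih =>
      rw [pow_succ', mul_assoc, ih, pow_succ]
      linear_combination (-(m * w)) ^ j * h2
  rw [h3, neg_pow, mul_pow, hm]
  simp

theorem zsum {Γ ι : Type} [CommGroup Γ] (u : Γ) (s : Finset ι) (f : ι → ℤ) :
    u ^ (∑ i ∈ s, f i) = ∏ i ∈ s, u ^ f i := by
  classical
  induction s using Finset.induction_on with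
  | empty => simp
  | insert i s hi ih => rw [sum_insert hi, prod_insert hi, zpow_add, ih]

theorem bez (G d' g : ℕ) (h1 : 1 ≤ d') (h2 : d' ≤ G) (h3 : g ≤ G) : ∃ (d x y : ℕ) (α β : ℤ),
    1 ≤ d ∧ d ≤ G ∧ d' = d * x ∧ g = d * y ∧ α * x + β * y = 1 ∧ |α| ≤ G ∧ |β| ≤ G ∧ x ≤ G ∧
      y ≤ G := by
  have hd : 0 < d'.gcd g := Nat.gcd_pos_of_pos_left _ h1
  obtain ⟨x, y, hxy, hx, hy⟩ := Nat.exists_coprime d' g
  obtain ⟨d, ed⟩ : ∃ d, d = d'.gcd g := ⟨_, rfl⟩
  rw [← ed] at hd hx hy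
  have x0 : 0 < x := Nat.pos_of_ne_zero fun e => by simp [e] at hx; omega
  have x1 : x ≤ G := by nlinarith
  have y1 : y ≤ G := by nlinarith
  obtain ⟨a, b, hab⟩ := Nat.isCoprime_iff_coprime.2 hxy
  have x2 : (0 : ℤ) < x := by exact_mod_cast x0
  have b0 := Int.emod_nonneg b x2.ne'
  have b1 := Int.emod_lt_of_pos b x2
  have e := Int.emod_add_mul_ediv b x
  have x3 : (x : ℤ) ≤ G := by exact_mod_cast x1
  have y3 : (y : ℤ) ≤ G := by exact_mod_cast y1
  have y0 : (0 : ℤ) ≤ y := Nat.cast_nonneg _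
  have e2 : (a + b / x * y) * x + b % x * y = 1 := by linear_combination hab + y * e
  refine ⟨d, x, y, a + b / x * y, b % x, hd, by nlinarith, by rw [hx, mul_comm],
    by rw [hy, mul_comm], e2, ?_, by rw [abs_le]; constructor <;> linarith, x1, y1⟩
  generalize a + b / x * y = α at e2
  have b2 := mul_nonneg b0 y0
  have b3 : b % x * y ≤ x * y := mul_le_mul_of_nonneg_right b1.le y0
  rw [abs_le]
  constructor
  · by_contra h
    nlinarith
  · by_contra h
    nlinarith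

theorem par {ι : Type} [DecidableEq ι] (G : ℕ) (g : Option ι → ℕ) (h0 : 1 ≤ g none)
    (hg : ∀ o, g o ≤ G) (s : Finset ι) :
    ∃ (d : ℕ) (b : Option ι → ℤ) (a : Option ι → ι → ℤ), 1 ≤ d ∧ d ≤ G ∧
      (∀ o, |b o| ≤ (G ^ s.card : ℕ)) ∧ (∀ o k, |a o k| ≤ (G ^ s.card : ℕ)) ∧
      ∀ (Γ : Type) [CommGroup Γ] (ρ : Option ι → Γ), ∃ (u : Γ) (τ : ι → Γ),
        u ^ d = ∏ o ∈ insertNone s, ρ o ^ g o ∧
        ∀ o ∈ insertNone s, ρ o = u ^ b o * ∏ k ∈ s, τ k ^ a o k := by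
  have G1 : 1 ≤ G := h0.trans (hg none)
  induction s using Finset.induction_on with
  | empty =>
    exact ⟨g none, fun _ => 1, fun _ _ => 0, h0, hg none, by simp, by simp, fun Γ _ ρ =>
      ⟨ρ none, fun _ => 1, by simp, fun o ho => by cases o <;> simp_all⟩⟩
  | insert i s hi ih =>
    obtain ⟨d', b', a', d1, d2, hb, ha, H⟩ := ih
    obtain ⟨d, x, y, α, β, e1, e2, e3, e4, e5, e6, e7, e8, e9⟩ :=
      bez G d' (g (some i)) d1 d2 (hg _)
    have P1 : (1 : ℤ) ≤ (G ^ s.card : ℕ) := by exact_mod_cast Nat.one_le_pow _ _ G1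
    have G2 : (1 : ℤ) ≤ G := by exact_mod_cast G1
    have hm : ∀ p q : ℤ, |p| ≤ G → |q| ≤ (G ^ s.card : ℕ) →
        |p * q| ≤ (G ^ (insert i s).card : ℕ) := fun p q hp hq => by
      rw [card_insert_of_notMem hi, pow_succ', Nat.cast_mul, abs_mul]
      exact mul_le_mul hp hq (abs_nonneg _) (by linarith)
    have h1 : |(1 : ℤ)| ≤ (G ^ s.card : ℕ) := by rwa [abs_one]
    refine ⟨d, fun o => if o = some i then β * 1 else α * b' o,
      fun o k => if k = i then (if o = some i then x * 1 else -y * b' o) else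
        (if o = some i then 0 * 1 else 1 * a' o k), e1, e2, fun o => ?_, fun o k => ?_,
      fun Γ _ ρ => ?_⟩
    · beta_reduce
      split_ifs
      exacts [hm _ _ e7 h1, hm _ _ e6 (hb o)]
    · beta_reduce
      split_ifs
      · exact hm _ _ (by simpa using e8) h1
      · exact hm _ _ (by simpa using e9) (hb o)
      · exact hm _ _ (by simp) h1
      · exact hm _ _ (by simpa using G1) (ha o k)
    obtain ⟨u, τ, hu, hτ⟩ := H Γ ρ
    have ne : ∀ k ∈ s, k ≠ i := fun k hk e => hi (e ▸ hk)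
    refine ⟨u ^ x * ρ (some i) ^ y, Function.update τ i (u ^ (-β) * ρ (some i) ^ α), ?_,
      fun o ho => ?_⟩
    · rw [prod_insertNone, prod_insert hi, mul_pow, ← pow_mul, ← pow_mul, mul_comm x, mul_comm y,
        ← e3, ← e4, hu, prod_insertNone, mul_assoc, mul_comm (ρ (some i) ^ _)]
    beta_reduce
    rw [prod_insert hi, Function.update_self, if_pos rfl]
    by_cases e : o = some i
    · simp only [if_pos e]
      rw [prod_eq_one fun k hk => by rw [if_neg (ne k hk)]; simp, e]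
      simp only [mul_one, mul_zpow, ← zpow_natCast, ← zpow_mul]
      rw [mul_mul_mul_comm, ← zpow_add, ← zpow_add, show (x : ℤ) * β + -β * x = 0 by ring,
        show (y : ℤ) * β + α * x = 1 by linear_combination e5]
      simp
    · simp only [if_neg e]
      have ho' : o ∈ insertNone s := by
        cases o with
        | none => simp
        | some j => simpa [show j ≠ i from fun h => e (h ▸ rfl)] using ho
      rw [prod_congr rfl fun k hk => by
        rw [if_neg (ne k hk), Function.update_of_ne (ne k hk), one_mul], ← mul_assoc]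
      conv_lhs => rw [hτ o ho']
      congr 1
      simp only [mul_zpow, ← zpow_natCast, ← zpow_mul]
      rw [mul_mul_mul_comm, ← zpow_add, ← zpow_add,
        show (y : ℤ) * (α * b' o) + α * (-y * b' o) = 0 by ring,
        show (x : ℤ) * (α * b' o) + -β * (-y * b' o) = b' o by linear_combination b' o * e5]
      simp

theorem fixz {R Γ : Type} [CommRing R] [CommGroup Γ] (φ : Γ →* R) {a : R} {u : Γ}
    (h : a * φ u = a) (β : ℤ) : a * φ (u ^ β) = a := by
  have h1 : ∀ k : ℕ, a * φ (u ^ k) = a := fun k => by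
    induction k with
    | zero => simp
    | succ k ih => rw [pow_succ, map_mul, ← mul_assoc, ih, h]
  obtain ⟨k, rfl | rfl⟩ := β.eq_nat_or_neg
  · rw [zpow_natCast, h1]
  · conv_lhs => rw [← h1 k, mul_assoc, ← map_mul, zpow_neg, zpow_natCast, mul_inv_cancel]
    simp

theorem kill {ι : Type} [DecidableEq ι] (s : Finset ι) (t G T : ℕ) (g : Option ι → ℕ)
    (Mon : Finset (Option ι → ℕ)) (h0 : 1 ≤ g none) (hg : ∀ o, g o ≤ G) (hT : 1 ≤ T)
    (ht : s.card ≤ t) (hG : t + 2 ≤ G) (hM : ∀ μ ∈ Mon, ∀ o, μ o ≤ G)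
    (hc : 2 * T ^ s.card ≤ Mon.card) :
    ∃ (d : ℕ) (c : (Option ι → ℕ) → ℤ), 1 ≤ d ∧ d ≤ G ∧ (∃ μ ∈ Mon, c μ ≠ 0) ∧
      (∀ μ ∈ Mon, |c μ| ≤ (Mon.card * G ^ ((t + 3) * (T * t)) : ℕ)) ∧
      ∀ (R Γ : Type) [CommRing R] [CommGroup Γ] (m : R) (φ : Γ →* R), m ^ T = 0 →
        (∀ γ, m ∣ φ γ - 1) → ∀ z : Option ι → Γ, ∏ o ∈ insertNone s, z o ^ g o = 1 →
        (d : R) ^ T * ∑ μ ∈ Mon, (c μ : R) * ∏ o ∈ insertNone s, φ (z o) ^ μ o = 0 := by
  obtain ⟨d, b, a, d1, d2, -, ha, H⟩ := par G g h0 hg s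
  have hl : ∀ μ ∈ Mon, ∀ k, |∑ o ∈ insertNone s, a o k * μ o| ≤ (G ^ (t + 2) : ℕ) := by
    intro μ hμ k
    refine (abs_sum_le_sum_abs _ _).trans ((sum_le_card_nsmul _ _ ((G ^ t * G : ℕ) : ℤ)
      fun o _ => ?_).trans ?_)
    · rw [abs_mul, Nat.abs_cast, Nat.cast_mul]
      exact mul_le_mul ((ha o k).trans (Nat.cast_le.2 (Nat.pow_le_pow_right (by omega) ht)))
        (Nat.cast_le.2 (hM μ hμ o)) (Nat.cast_nonneg _) (Nat.cast_nonneg _)
    · rw [card_insertNone, nsmul_eq_mul, ← Nat.cast_mul, Nat.cast_le, pow_succ, mul_comm, pow_succ]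
      exact Nat.mul_le_mul_left _ (by omega)
  obtain ⟨c, c1, c2, c3⟩ := aux s Mon
    (fun μ k => (∑ o ∈ insertNone s, a o k * μ o + (G ^ (t + 2) : ℕ)).toNat) T (G ^ (t + 3)) hT
    (Nat.one_le_pow _ _ (by omega)) (fun μ hμ k _ => by
      have := (abs_le.1 (hl μ hμ k)).2
      have h2 : G ^ (t + 2) * 2 ≤ G ^ (t + 3) := by
        rw [pow_succ G (t + 2)]; exact Nat.mul_le_mul_left _ (by omega)
      omega) hc
  refine ⟨d, c, d1, d2, c1, fun μ hμ => (c2 μ hμ).trans (Nat.cast_le.2 ?_), ?_⟩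
  · rw [← pow_mul]
    exact Nat.mul_le_mul_left _ (Nat.pow_le_pow_right (by omega) (by gcongr))
  intro R Γ _ _ m φ hm hφ z hz
  obtain ⟨u, τ, hu, hτ⟩ := H Γ z
  have h1 := root (T := T) (d := d) hm (hφ u) (by rw [← map_pow, hu, hz, map_one])
  rw [mul_sub, mul_one, sub_eq_zero] at h1
  have h2 := c3 R (fun k => φ (τ k)) fun k _ =>
    zero_dvd_iff.1 (hm ▸ pow_dvd_pow_of_dvd (hφ _) T)
  have h3 : ∀ μ ∈ Mon, ∏ o ∈ insertNone s, z o ^ μ o =
      u ^ (∑ o ∈ insertNone s, b o * μ o) * (∏ k ∈ s, τ k ^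
        (∑ o ∈ insertNone s, a o k * μ o + (G ^ (t + 2) : ℕ)).toNat) *
        (∏ k ∈ s, τ k ^ G ^ (t + 2))⁻¹ := fun μ hμ => by
    rw [eq_mul_inv_iff_mul_eq, prod_congr rfl fun o ho => by rw [hτ o ho, mul_pow],
      prod_mul_distrib, zsum, mul_assoc]
    congr 1
    · exact prod_congr rfl fun o _ => by rw [zpow_mul, zpow_natCast]
    · simp only [← prod_pow]
      rw [prod_comm, ← prod_mul_distrib]
      refine prod_congr rfl fun k _ => ?_
      rw [← zpow_natCast (τ k) (Int.toNat _), Int.toNat_of_nonneg (by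
        have := (abs_le.1 (hl μ hμ k)).1
        omega), zpow_add, zsum, zpow_natCast]
      congr 1
      exact prod_congr rfl fun o _ => by rw [zpow_mul, zpow_natCast]
  rw [mul_sum, ← mul_zero ((d : R) ^ T * φ (∏ k ∈ s, τ k ^ G ^ (t + 2))⁻¹), ← h2, mul_sum]
  refine sum_congr rfl fun μ hμ => ?_
  simp only [← map_pow, ← map_prod]
  rw [h3 μ hμ, map_mul, map_mul]
  generalize φ (∏ k ∈ s, τ k ^ G ^ (t + 2))⁻¹ = p
  generalize φ (∏ k ∈ s, τ k ^ _) = q
  linear_combination (c μ * p * q) * fixz φ h1 (∑ o ∈ insertNone s, b o * μ o)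

end Pool.Agent.P.MP_7aad9f_nt.TR
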