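import Pool.Agent.P.MP_7aad9f_nt.TR.Elim
import Pool.Agent.P.MP_7aad9f_nt.TR.Poly

/-! Counting the points of one class. -/

set_option autoImplicit false

namespace Pool.Agent.P.MP_7aad9f_nt.TR

open Finset

/-- one-units -/
def U1 {R : Type} [CommRing R] (m : R) : Subgroup Rˣ where
  carrier := {γ | m ∣ (γ : R) - 1}
  one_mem' := by simp
  mul_mem' {a b} ha hb := by
    have := dvd_add (Dvd.dvd.mul_left hb (a : R)) ha
    exact this.trans (dvd_of_eq (by push_cast; ring))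
  inv_mem' {a} ha := by
    have := Dvd.dvd.mul_left ha (-(a⁻¹ : Rˣ) : R)
    exact this.trans (dvd_of_eq (by linear_combination -a.inv_mul))

/-- a bihomogeneous monomial -/
def mon {O : Type} (s : Finset O) (De μ x y : O → ℕ) : ℕ :=
  ∏ o ∈ s, x o ^ μ o * y o ^ (De o - μ o)

theorem mon_le {O : Type} {s : Finset O} {De μ x y : O → ℕ} (B : O → ℕ)
    (h : ∀ o ∈ s, μ o ≤ De o ∧ x o ≤ B o ∧ y o ≤ B o) : mon s De μ x y ≤ ∏ o ∈ s, B o ^ De o :=
  prod_le_prod' fun o ho => by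
    obtain ⟨h1, h2, h3⟩ := h o ho
    conv_rhs => rw [← Nat.add_sub_cancel' h1, pow_add]
    gcongr

theorem word {α O R Γ : Type} [CommRing R] [CommGroup Γ] (φ : Γ →* R) (s : Finset O)
    (g : O → ℕ) (Mon : Finset (O → ℕ)) (E : (O → ℕ) → α → R) (w : List α)
    (h : ∀ P ∈ w, ∃ (z : O → Γ) (U : R), ∏ o ∈ s, z o ^ g o = 1 ∧
      ∀ μ ∈ Mon, E μ P = U * ∏ o ∈ s, φ (z o) ^ μ o) :
    ∃ (z : O → Γ) (U : R), ∏ o ∈ s, z o ^ g o = 1 ∧
      ∀ μ ∈ Mon, (w.map (E μ)).prod = U * ∏ o ∈ s, φ (z o) ^ μ o := by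
  induction w with
  | nil => exact ⟨1, 1, by simp, by simp⟩
  | cons P w ih =>
    obtain ⟨z, U, h1, h2⟩ := h P (by simp)
    obtain ⟨z', U', h3, h4⟩ := ih fun Q hQ => h Q (by simp [hQ])
    refine ⟨z * z', U * U', by simp [mul_pow, prod_mul_distrib, h1, h3], fun μ hμ => ?_⟩
    simp only [List.map_cons, List.prod_cons, h2 μ hμ, h4 μ hμ, Pi.mul_apply, map_mul, mul_pow,
      prod_mul_distrib]
    ring

theorem single {O : Type} (s : Finset O) (g De p q : O → ℕ) (m T : ℕ)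
    (hp : ∀ o ∈ s, (q o).Coprime m ∧ p o ≡ q o [MOD m])
    (hr : ∏ o ∈ s, p o ^ g o ≡ ∏ o ∈ s, q o ^ g o [MOD m ^ T]) :
    ∃ (z : O → U1 (m : ZMod (m ^ T))) (U : ZMod (m ^ T)), ∏ o ∈ s, z o ^ g o = 1 ∧
      ∀ μ : O → ℕ, (∀ o, μ o ≤ De o) → (mon s De μ p q : ZMod (m ^ T)) =
        U * ∏ o ∈ s, ((Units.coeHom _).comp (U1 (m : ZMod (m ^ T))).subtype) (z o) ^ μ o := by
  have hu : ∀ k : ℕ, k.Coprime m → IsUnit (k : ZMod (m ^ T)) := fun k hk =>
    (ZMod.isUnit_iff_coprime _ _).2 (hk.pow_right T)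
  have h1 : ∀ o ∈ s, ∃ z : U1 (m : ZMod (m ^ T)), ((z : (ZMod (m ^ T))ˣ) : ZMod (m ^ T)) * q o = p o :=
    fun o ho => by
      obtain ⟨h2, h3⟩ := hp o ho
      obtain ⟨a, ha⟩ := hu _ h2
      obtain ⟨b, hb⟩ := hu (p o) (by rwa [Nat.Coprime, h3.gcd_eq])
      obtain ⟨k, hk⟩ := h3.symm.dvd
      have hk' := congrArg (Int.cast : ℤ → ZMod (m ^ T)) hk
      push_cast at hk'
      refine ⟨⟨b * a⁻¹, k * (a⁻¹ : (ZMod (m ^ T))ˣ), ?_⟩, ?_⟩
      · rw [← ha, ← hb] at hk'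
        push_cast
        linear_combination (a⁻¹ : (ZMod (m ^ T))ˣ) * hk' + a.mul_inv
      · change ((b * a⁻¹ : (ZMod (m ^ T))ˣ) : ZMod (m ^ T)) * q o = p o
        rw [← ha, ← hb]
        simp
  choose! z hz using h1
  refine ⟨z, ∏ o ∈ s, (q o : ZMod (m ^ T)) ^ De o, ?_, fun μ hμ => ?_⟩
  · have h2 := (ZMod.natCast_eq_natCast_iff _ _ _).2 hr
    have h3 := hu _ (Nat.Coprime.prod_left fun o ho => (hp o ho).1.pow_left (g o))
    refine Subtype.ext (Units.ext (h3.mul_left_inj.1 ?_))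
    push_cast at h2 ⊢
    rw [one_mul, ← prod_mul_distrib, ← h2]
    exact prod_congr rfl fun o ho => by rw [← mul_pow, hz o ho]
  · rw [mon, ← prod_mul_distrib, Nat.cast_prod]
    refine prod_congr rfl fun o ho => ?_
    conv_rhs => rw [← Nat.add_sub_cancel' (hμ o), pow_add]
    push_cast
    rw [← hz o ho]
    simp only [MonoidHom.comp_apply, Subgroup.subtype_apply, Units.coeHom_apply]
    ring

theorem lvl {α ι : Type} [DecidableEq ι] (s : Finset ι) (t G T m B : ℕ) (g De : Option ι → ℕ)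
    (Mon : Finset (Option ι → ℕ)) (S : Finset α) (N Dn : α → Option ι → ℕ) (h0 : 1 ≤ g none)
    (hg : ∀ o, g o ≤ G) (hT : 1 ≤ T) (ht : s.card ≤ t) (hG : t + 2 ≤ G)
    (hM : ∀ μ ∈ Mon, ∀ o, μ o ≤ De o) (hD : ∀ o, De o ≤ G) (hc : 2 * (2 * T) ^ s.card ≤ Mon.card)
    (hn : Mon.card ≤ G ^ (t + 1)) (hm : G ^ (2 * (t + 2) ^ 2) ≤ m) (B1 : 1 ≤ B)
    (hB : ∀ μ ∈ Mon, ∀ P ∈ S, mon (insertNone s) De μ (N P) (Dn P) ≤ B ∧
      mon (insertNone s) De μ (Dn P) (N P) ≤ B) (hB2 : B ^ (2 * (t + 1)) ≤ m ^ T)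
    (cop : ∀ P ∈ S, ∀ o ∈ insertNone s, (N P o).Coprime m ∧ (Dn P o).Coprime m)
    (md : ∀ P ∈ S, ∀ Q ∈ S, ∀ o ∈ insertNone s, N P o * Dn Q o ≡ N Q o * Dn P o [MOD m])
    (rel : ∀ P ∈ S, ∀ Q ∈ S, ∏ o ∈ insertNone s, (N P o * Dn Q o) ^ g o ≡
      ∏ o ∈ insertNone s, (N Q o * Dn P o) ^ g o [MOD m ^ (2 * T)]) (hne : S.Nonempty) :
    Rel S (fun μ P => mon (insertNone s) De μ (N P) (Dn P)) Mon (s.card + 1) (m ^ (2 * T)) := by
  obtain ⟨Q, hQ⟩ := hne
  obtain ⟨d, c, d1, d2, ⟨μ0, c0, c1⟩, c2, c3⟩ := kill s t G (2 * T) g Mon h0 hg (by omega) ht hG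
    (fun μ hμ o => (hM μ hμ o).trans (hD o)) hc
  obtain ⟨X, eX⟩ : ∃ X, X = Mon.card * G ^ ((t + 3) * (2 * T * t)) * B ^ (t + 1) := ⟨_, rfl⟩
  have G2 : 2 ≤ G := by omega
  have m2 : 1 < m := lt_of_lt_of_le (Nat.one_lt_pow (by positivity) G2) hm
  have hX : G ^ (2 * T) * (Mon.card * (X * B ^ (t + 1))) < m ^ (2 * T) := by
    calc _ ≤ G ^ (2 * T) * (G ^ (t + 1) * (G ^ (t + 1) * G ^ ((t + 3) * (2 * T * t)) * B ^ (t + 1) *
            B ^ (t + 1))) := by rw [eX]; gcongr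
      _ = G ^ (2 * T + 2 * (t + 1) + (t + 3) * (2 * T * t)) * B ^ (2 * (t + 1)) := by ring
      _ < G ^ (2 * (t + 2) ^ 2 * T) * m ^ T := Nat.mul_lt_mul_of_lt_of_le
          (Nat.pow_lt_pow_right G2 (by nlinarith)) hB2 (by positivity)
      _ ≤ m ^ T * m ^ T := by rw [pow_mul]; gcongr
      _ = _ := by ring
  have hl : ∀ z ≤ B, z ^ (s.card + 1) ≤ B ^ (t + 1) := fun z hz =>
    (Nat.pow_le_pow_left hz _).trans (Nat.pow_le_pow_right B1 (by omega))
  have c4 : ∀ μ ∈ Mon, |c μ * (mon (insertNone s) De μ (Dn Q) (N Q) ^ (s.card + 1) : ℕ)| ≤ X :=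
    fun μ hμ => by
      rw [abs_mul, Nat.abs_cast, eX, Nat.cast_mul]
      exact mul_le_mul (c2 μ hμ) (Nat.cast_le.2 (hl _ (hB μ hμ Q hQ).2)) (by positivity)
        (by positivity)
  refine ⟨fun μ => c μ * (mon (insertNone s) De μ (Dn Q) (N Q) ^ (s.card + 1) : ℕ),
    ⟨μ0, c0, mul_ne_zero c1 (Nat.cast_ne_zero.2 (pow_ne_zero _ (prod_ne_zero_iff.2 fun o ho =>
      mul_ne_zero (pow_ne_zero _ fun e => ?_) (pow_ne_zero _ fun e => ?_))))⟩,
    fun μ hμ => (c4 μ hμ).trans (Nat.cast_le.2 (le_trans ?_ hX.le)), fun w hw => ?_⟩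
  · have := (cop Q hQ o ho).2
    simp [e] at this
    omega
  · have := (cop Q hQ o ho).1
    simp [e] at this
    omega
  · exact ((Nat.le_mul_of_pos_right _ (by positivity)).trans (Nat.le_mul_of_pos_left _
      (card_pos.2 ⟨μ0, c0⟩))).trans (Nat.le_mul_of_pos_left _ (by positivity))
  obtain ⟨z, U, z1, z2⟩ := word ((Units.coeHom _).comp (U1 (m : ZMod (m ^ (2 * T)))).subtype)
    (insertNone s) g Mon (fun μ P => ((mon (insertNone s) De μ (N P) (Dn P) *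
      mon (insertNone s) De μ (Dn Q) (N Q) : ℕ) : ZMod (m ^ (2 * T)))) w fun P hP => by
      have hP := hw.2 P hP
      obtain ⟨z, U, z1, z2⟩ := single (insertNone s) g De (fun o => N P o * Dn Q o)
        (fun o => N Q o * Dn P o) m (2 * T)
        (fun o ho => ⟨(cop Q hQ o ho).1.mul_left (cop P hP o ho).2, md P hP Q hQ o ho⟩)
        (rel P hP Q hQ)
      refine ⟨z, U, z1, fun μ hμ => ?_⟩
      rw [← z2 μ (hM μ hμ), mon, mon, mon, ← prod_mul_distrib]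
      exact congrArg _ (prod_congr rfl fun o _ => by ring)
  have h1 := c3 _ _ (m : ZMod (m ^ (2 * T))) ((Units.coeHom _).comp (U1 _).subtype)
    (by rw [← Nat.cast_pow, ZMod.natCast_self]) (fun γ => γ.2) z z1
  refine (mul_eq_zero.1 (Int.eq_zero_of_abs_lt_dvd (m := (m ^ (2 * T) : ℕ)) ?_ ?_)).resolve_left
    (pow_ne_zero (2 * T) (show (d : ℤ) ≠ 0 by omega))
  · rw [← ZMod.intCast_zmod_eq_zero_iff_dvd, ← mul_zero U, ← h1, mul_left_comm U, mul_sum _ _ U]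
    push_cast
    congr 1
    refine sum_congr rfl fun μ hμ => ?_
    rw [mul_left_comm U, ← z2 μ hμ, ← hw.1]
    simp [List.prod_map_mul, mul_comm, mul_assoc, Function.comp_def]
  · refine lt_of_le_of_lt ?_ (Nat.cast_lt.2 hX)
    rw [abs_mul, abs_pow, Nat.abs_cast, Nat.cast_mul, Nat.cast_mul, Nat.cast_pow]
    refine mul_le_mul (pow_le_pow_left₀ (by positivity) (Nat.cast_le.2 d2) _)
      ((abs_sum_le_sum_abs _ _).trans ((sum_le_card_nsmul _ _ _ fun μ hμ => ?_).trans_eq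
        (nsmul_eq_mul _ _))) (abs_nonneg _) (by positivity)
    rw [abs_mul, Nat.abs_cast, Nat.cast_mul]
    refine mul_le_mul (c4 μ hμ) (Nat.cast_le.2 ?_) (by positivity) (by positivity)
    have := List.prod_le_pow_card (w.map fun P => mon (insertNone s) De μ (N P) (Dn P)) B
      fun x hx => by
        obtain ⟨P, hP, rfl⟩ := List.mem_map.1 hx
        exact (hB μ hμ P (hw.2 P hP)).1
    rw [List.length_map, hw.1] at this
    exact this.trans (hl B le_rfl)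

theorem fin {α β : Type} (S : Finset α) (ev : β → α → ℕ) (Mon : Finset β) (C F : ℕ) (e : β → ℕ)
    (n d ρ : α → ℕ) (he : ∀ μ ∈ Mon, e μ ≤ F) (hi : ∀ μ ∈ Mon, ∀ ν ∈ Mon, e μ = e ν → μ = ν)
    (hev : ∀ μ ∈ Mon, ∀ P ∈ S, ev μ P = n P ^ e μ * d P ^ (F - e μ) * ρ P)
    (hd : ∀ P ∈ S, d P ≠ 0 ∧ ρ P ≠ 0) (h : Rel S ev Mon 1 C) :
    (S.image fun P => (n P : ℚ) / d P).card ≤ F := by
  obtain ⟨c, ⟨μ0, c0, c1⟩, -, c2⟩ := h
  obtain ⟨p, ep⟩ : ∃ p, p = ∑ μ ∈ Mon, Polynomial.monomial (e μ) (c μ : ℚ) := ⟨_, rfl⟩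
  have p0 : p ≠ 0 := fun h => by
    have := congrArg (Polynomial.coeff · (e μ0)) ep
    simp only [h, Polynomial.finsetSum_coeff, Polynomial.coeff_monomial] at this
    rw [sum_eq_single_of_mem μ0 c0 fun ν hν hne => if_neg fun h => hne (hi ν hν μ0 c0 h)] at this
    simp [eq_comm, c1] at this
  refine (Polynomial.card_le_degree_of_subset_roots (p := p) fun x hx => ?_).trans
    (ep ▸ Polynomial.natDegree_sum_le_of_forall_le _ _ fun μ hμ =>
      (Polynomial.natDegree_monomial_le _).trans (he μ hμ))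
  obtain ⟨P, hP, rfl⟩ := mem_image.1 hx
  have h1 := congrArg (Int.cast : ℤ → ℚ) (c2 [P] ⟨rfl, by simpa using hP⟩)
  have h2 : (d P : ℚ) ≠ 0 := Nat.cast_ne_zero.2 (hd P hP).1
  have h3 : (ρ P : ℚ) ≠ 0 := Nat.cast_ne_zero.2 (hd P hP).2
  rw [Polynomial.mem_roots p0, Polynomial.IsRoot, ep, Polynomial.eval_finsetSum,
    ← mul_left_inj' (mul_ne_zero (pow_ne_zero F h2) h3), zero_mul, sum_mul, ← Int.cast_zero, ← h1,
    Int.cast_sum]
  refine sum_congr rfl fun μ hμ => ?_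
  obtain ⟨k, hk⟩ := Nat.exists_eq_add_of_le (he μ hμ)
  simp only [Polynomial.eval_monomial, List.map_singleton, List.prod_singleton, hev μ hμ P hP]
  rw [hk, Nat.add_sub_cancel_left, div_pow, pow_add]
  push_cast
  field_simp

/-- points in one congruence class which satisfy a multiplicative congruence -/
structure Cls {α ι : Type} (m T H Y : ℕ) (s : Finset ι) (g0 : ℕ) (g : ι → ℕ) (S : Finset α)
    (n d : α → ℕ) (r : α → ι → ℕ) : Prop where
  cn : ∀ P ∈ S, (n P).Coprime m ∧ (d P).Coprime m ∧ n P ≤ H ∧ d P ≤ H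
  pr : ∀ P ∈ S, ∀ j ∈ s, (r P j).Prime ∧ (r P j).Coprime m ∧ r P j ≤ Y ∧ ¬r P j ∣ n P ∧
    ¬r P j ∣ d P ∧ ∀ i ∈ s, r P i = r P j → i = j
  md : ∀ P ∈ S, ∀ Q ∈ S, n P * d Q ≡ n Q * d P [MOD m] ∧ ∀ j ∈ s, r P j ≡ r Q j [MOD m]
  rel : ∀ P ∈ S, ∀ Q ∈ S, (n P * d Q) ^ g0 * ∏ j ∈ s, r P j ^ g j ≡
    (n Q * d P) ^ g0 * ∏ j ∈ s, r Q j ^ g j [MOD m ^ T]
  inj : ∀ P ∈ S, ∀ Q ∈ S, n P * d Q = n Q * d P → (∀ j ∈ s, r P j = r Q j) → P = Q

theorem step {α ι : Type} [Fintype ι] [DecidableEq ι] {t K κ F J m G : ℕ} (hK : 1 ≤ K)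
    (hκ : κ = 2 * (t + 1) ^ 2 * K) (hF : F = 2 * (2 * κ) ^ t) (hJ : K ≤ J)
    (hT : 2 * (κ * (F * J)) ≤ G) (hm : m ≤ 2 ^ G) (hm' : G ^ (2 * (t + 2) ^ 2) ≤ m)
    (hG : t + 2 ≤ G) {s : Finset ι} (ht : s.card ≤ t) {g0 : ℕ} {g : ι → ℕ} (h0 : 1 ≤ g0)
    (h1 : g0 ≤ G) (hg : ∀ j, g j ≤ G) {S : Finset α} {n d : α → ℕ} {r : α → ι → ℕ}
    (h : Cls m (2 * (κ * (F * J))) (m ^ J) (m ^ K) s g0 g S n d r)
    (hr : ∀ j ∈ s, G ^ (2 * t + 9) ≤ (S.image (r · j)).card) :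
    (S.image fun P => (n P : ℚ) / d P).card ≤ F := by
  rcases S.eq_empty_or_nonempty with rfl | hne
  · simp
  obtain ⟨D, eD⟩ : ∃ D, D = F * J := ⟨_, rfl⟩
  rw [← eD] at h hT
  have κ1 : 1 ≤ κ := by rw [hκ]; exact Nat.mul_pos (by positivity) hK
  have F1 : 1 ≤ F := by rw [hF]; exact Nat.mul_pos (by norm_num) (by positivity)
  have FD : F ≤ D := by rw [eD]; exact Nat.le_mul_of_pos_right _ (by omega)
  have DT : D ≤ κ * D := Nat.le_mul_of_pos_left _ κ1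
  have G2 : 2 ≤ G := by omega
  have m2 : 1 < m := lt_of_lt_of_le (Nat.one_lt_pow (by positivity) G2) hm'
  obtain ⟨De, eDe⟩ : ∃ De : Option ι → ℕ, De = fun o => o.elim F fun j => if j ∈ s then D else 0 :=
    ⟨_, rfl⟩
  obtain ⟨Mon, eM⟩ : ∃ Mon, Mon = Fintype.piFinset fun o => range (De o + 1) := ⟨_, rfl⟩
  have hM : ∀ μ ∈ Mon, ∀ o, μ o ≤ De o := fun μ hμ o => by
    rw [eM] at hμ
    simpa [Nat.lt_succ_iff] using Fintype.mem_piFinset.1 hμ o
  have hc : Mon.card = (F + 1) * (D + 1) ^ s.card := by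
    simp [eM, eDe, Fintype.prod_option, apply_ite (· + 1), prod_ite_mem]
  have hn : Mon.card ≤ G ^ (t + 1) := by
    rw [hc, pow_succ']
    exact Nat.mul_le_mul (by omega)
      ((Nat.pow_le_pow_left (by omega) _).trans (Nat.pow_le_pow_right (by omega) ht))
  have hb : ∀ μ ∈ Mon, ∀ x y : Option ι → ℕ, (∀ o ∈ insertNone s, x o ≤ o.elim (m ^ J) (fun _ =>
      m ^ K) ∧ y o ≤ o.elim (m ^ J) fun _ => m ^ K) →
      mon (insertNone s) De μ x y ≤ m ^ ((t + 1) * K * D) := fun μ hμ x y hx => by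
    refine (mon_le _ fun o ho => ⟨hM μ hμ o, hx o ho⟩).trans ?_
    rw [prod_insertNone, prod_congr rfl fun j hj => show _ = (m ^ K) ^ D by simp [eDe, hj]]
    simp only [eDe, Option.elim, prod_const, ← pow_mul, ← pow_add]
    refine Nat.pow_le_pow_right m2.le ?_
    have : K * D * s.card ≤ K * D * t := Nat.mul_le_mul_left _ ht
    have : D ≤ K * D := Nat.le_mul_of_pos_left _ hK
    nlinarith
  have hb1 : ∀ P ∈ S, ∀ o ∈ insertNone s, o.elim (n P) (r P) ≤ o.elim (m ^ J) (fun _ => m ^ K) ∧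
      o.elim (d P) (fun _ => 1) ≤ o.elim (m ^ J) fun _ => m ^ K := fun P hP o ho => by
    cases o with
    | none => exact (h.cn P hP).2.2
    | some j => exact ⟨(h.pr P hP j (by simpa using ho)).2.2.1, Nat.one_le_pow _ _ m2.le⟩
  have hG2 : ∀ k ≤ G, m ^ k ≤ 2 ^ G ^ 2 := fun k hk => by
    rw [sq, pow_mul]
    exact (Nat.pow_le_pow_left hm _).trans (Nat.pow_le_pow_right (by positivity) hk)
  have hκ2 : (t + 1) * K * D * (2 * (t + 1)) = κ * D := by rw [hκ]; ring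
  have r1 := lvl s t G (κ * D) m (m ^ ((t + 1) * K * D)) (fun o => o.elim g0 g) De Mon S
    (fun P o => o.elim (n P) (r P)) (fun P o => o.elim (d P) fun _ => 1) h0
    (fun o => by cases o; exacts [h1, hg _]) (by omega) ht hG hM
    (fun o => by cases o <;> simp only [eDe, Option.elim] <;> (try split_ifs) <;> omega)
    (by
      rw [hc, ← mul_assoc, mul_pow, ← mul_assoc]
      refine Nat.mul_le_mul (hF ▸ ?_) (Nat.pow_le_pow_left (by omega) _)
      have := Nat.pow_le_pow_right (show 0 < 2 * κ by omega) ht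
      omega) hn hm' (Nat.one_le_pow _ _ m2.le)
    (fun μ hμ P hP => ⟨hb μ hμ _ _ (hb1 P hP), hb μ hμ _ _ fun o ho => (hb1 P hP o ho).symm⟩)
    (by rw [← pow_mul, hκ2])
    (fun P hP o ho => by
      cases o with
      | none => exact ⟨(h.cn P hP).1, (h.cn P hP).2.1⟩
      | some j => exact ⟨(h.pr P hP j (by simpa using ho)).2.1, by simp⟩)
    (fun P hP Q hQ o ho => by
      cases o with
      | none => exact (h.md P hP Q hQ).1
      | some j => exact ((h.md P hP Q hQ).2 j (by simpa using ho)).mul_right _)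
    (fun P hP Q hQ => by simpa [prod_insertNone] using h.rel P hP Q hQ) hne
  have ev : ∀ μ P, mon (insertNone s) De μ (fun o => o.elim (n P) (r P))
      (fun o => o.elim (d P) fun _ => 1) =
      n P ^ μ none * d P ^ (F - μ none) * ∏ j ∈ s, r P j ^ μ (some j) := fun μ P => by
    simp [mon, prod_insertNone, eDe]
  refine (elims S _ Mon r (fun μ j => μ (some j)) (G ^ (t + 1)) (G ^ 2) (G ^ 2)
    (G ^ (2 * t + 6)) (t + 1) hn
    (fun μ hμ P hP => (hb μ hμ _ _ (hb1 P hP)).trans (hG2 _ (by nlinarith)))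
    (by
      have a1 : G ^ (t + 1) ≤ G ^ (t + 3) := Nat.pow_le_pow_right (by omega) (by omega)
      have a2 : G ^ 2 * (t + 1) ≤ G ^ (t + 3) :=
        (Nat.mul_le_mul_left _ (by omega)).trans ((pow_succ G 2).ge.trans
          (Nat.pow_le_pow_right (by omega) (by omega)))
      have a3 : 0 < G ^ (t + 3) := by positivity
      have a4 : G ^ (t + 3) * 2 ^ 2 ≤ G ^ (t + 3) * G ^ 2 := by gcongr
      calc _ < G ^ (t + 3) * G ^ 2 * G ^ (t + 1) :=
            Nat.mul_lt_mul_of_pos_right (by omega) (by positivity)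
        _ = _ := by ring) s
    (fun j hj => ⟨le_trans ?_ (hr j hj), fun P hP => ?_⟩) 1 (by omega)
    (r1.imp fun c hc => ⟨hc.1, fun μ hμ => (hc.2.1 μ hμ).trans (Nat.cast_le.2 ((hG2 _ hT).trans
      (Nat.pow_le_pow_right (by norm_num) (Nat.le_mul_of_pos_right _ (by positivity))))),
      hc.2.2⟩)).elim fun M ⟨M1, M2, r2⟩ => ?_
  rotate_right
  · obtain ⟨μ0, c0⟩ : M.Nonempty := by
      obtain ⟨c, ⟨μ0, c0, -⟩, -⟩ := r2
      exact ⟨μ0, c0⟩
    refine fin S _ M _ F (· none) n d (fun P => ∏ j ∈ s, r P j ^ μ0 (some j))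
      (fun μ hμ => by simpa [eDe] using hM μ (M1 hμ) none) (fun μ hμ ν hν e => funext fun o => ?_)
      (fun μ hμ P hP => ?_) (fun P hP => ⟨fun e => ?_, prod_ne_zero_iff.2 fun j hj =>
        pow_ne_zero _ (h.pr P hP j hj).1.ne_zero⟩) r2
    · cases o with
      | none => exact e
      | some j =>
        by_cases hj : j ∈ s
        · exact M2 μ hμ ν hν j hj
        · have a1 := hM μ (M1 hμ) (some j)
          have a2 := hM ν (M1 hν) (some j)
          simp only [eDe, Option.elim, if_neg hj] at a1 a2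
          omega
    · rw [ev, prod_congr rfl fun j hj => by rw [M2 μ hμ μ0 c0 j hj]]
    · have := (h.cn P hP).2.1
      simp [e] at this
      omega
  · have : G ^ (2 * t + 9) = G ^ (2 * t + 6) * (G ^ 2 * G) := by ring
    have a2 : 1 + G ^ 2 ≤ G ^ 2 * G := by nlinarith
    rw [this]
    exact le_trans (le_of_eq (by ring)) (Nat.mul_le_mul_left _ a2)
  · obtain ⟨p1, -, p2, p3, p4, p5⟩ := h.pr P hP j hj
    refine ⟨p1, p2.trans (hG2 _ (by nlinarith)), fun μ hμ => ⟨n P ^ μ none * d P ^ (F - μ none) *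
      ∏ i ∈ s.erase j, r P i ^ μ (some i), by rw [ev, ← mul_prod_erase s _ hj]; ring, fun h' => ?_⟩⟩
    rcases (Nat.Prime.dvd_mul p1).1 h' with h' | h'
    · exact ((Nat.Prime.dvd_mul p1).1 h').elim (fun h' => p3 (p1.dvd_of_dvd_pow h'))
        fun h' => p4 (p1.dvd_of_dvd_pow h')
    · obtain ⟨i, hi, h'⟩ := (Prime.dvd_finsetProd_iff p1.prime _).1 h'
      have hi' := mem_of_mem_erase hi
      exact ne_of_mem_erase hi (p5 i hi' ((Nat.prime_dvd_prime_iff_eq p1 (h.pr P hP i hi').1).1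
        (p1.dvd_of_dvd_pow h')).symm)

theorem fib {α β : Type} (S : Finset α) (T : Finset β) (R : α → β → Prop) (n : ℕ)
    (hf : ∀ P ∈ S, ∃ b ∈ T, R P b)
    (h : ∀ S' ⊆ S, ∀ b ∈ T, (∀ P ∈ S', R P b) → S'.card ≤ n) : S.card ≤ T.card * n := by
  classical
  refine (card_le_card (t := T.biUnion fun b => S.filter (R · b)) fun P hP => ?_).trans
    (card_biUnion_le_card_mul _ _ _ fun b hb =>
      h _ (filter_subset _ _) b hb fun P hP => (mem_filter.1 hP).2)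
  obtain ⟨b, h1, h2⟩ := hf P hP
  exact mem_biUnion.2 ⟨b, h1, mem_filter.2 ⟨hP, h2⟩⟩

theorem gt {α ι : Type} [Fintype ι] [DecidableEq ι] {t K κ F J m G : ℕ} (hK : 1 ≤ K)
    (hκ : κ = 2 * (t + 1) ^ 2 * K) (hF : F = 2 * (2 * κ) ^ t) (hJ : K ≤ J)
    (hT : 2 * (κ * (F * J)) ≤ G) (hm : m ≤ 2 ^ G) (hm' : G ^ (2 * (t + 2) ^ 2) ≤ m)
    (hG : t + 2 ≤ G) {g : ι → ℕ} (hg : ∀ j, 1 ≤ g j ∧ g j ≤ G) {r : α → ι → ℕ} (k : ℕ) (hk : k ≤ t) :
    ∀ (s : Finset ι) (g0 : ℕ) (S : Finset α) (n d : α → ℕ), s.card = k → 1 ≤ g0 → g0 ≤ G →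
      Cls m (2 * (κ * (F * J))) (m ^ J) (m ^ K) s g0 g S n d r →
      S.card ≤ (G ^ (2 * t + 9)) ^ (k + 1) := by
  have κ1 : 1 ≤ κ := by rw [hκ]; exact Nat.mul_pos (by positivity) hK
  have m2 : 1 < m := lt_of_lt_of_le (Nat.one_lt_pow (by positivity) (by omega)) hm'
  have FG : F ≤ G ^ (2 * t + 9) := by
    have := Nat.le_mul_of_pos_left (F * J) κ1
    have := Nat.le_mul_of_pos_right F (hK.trans hJ)
    have := Nat.le_self_pow (show 2 * t + 9 ≠ 0 by omega) G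
    omega
  have key : ∀ {s : Finset ι} {g0 : ℕ} {S : Finset α} {n d : α → ℕ},
      Cls m (2 * (κ * (F * J))) (m ^ J) (m ^ K) s g0 g S n d r → ∀ P ∈ S, ∀ Q ∈ S,
      (n P : ℚ) / d P = n Q / d Q → n P * d Q = n Q * d P := fun {s g0 S n d} h P hP Q hQ e => by
    have d0 : ∀ P ∈ S, (d P : ℚ) ≠ 0 := fun P hP => Nat.cast_ne_zero.2 fun e => by
      have := (h.cn P hP).2.1
      simp [e] at this
      omega
    rw [div_eq_div_iff (d0 P hP) (d0 Q hQ)] at e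
    exact_mod_cast e
  induction k with
  | zero =>
    intro s g0 S n d hs h0 h1 h
    obtain rfl := card_eq_zero.1 hs
    rw [zero_add, pow_one, ← card_image_of_injOn (f := fun P => (n P : ℚ) / d P)
      fun P hP Q hQ e => h.inj P hP Q hQ (key h P hP Q hQ e) (by simp)]
    exact (step hK hκ hF hJ hT hm hm' hG (by simp) h0 h1 (fun j => (hg j).2) h (by simp)).trans FG
  | succ k ih =>
    intro s g0 S n d hs h0 h1 h
    have ih := ih (by omega)
    rw [pow_succ']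
    by_cases hr : ∀ j ∈ s, G ^ (2 * t + 9) ≤ (S.image (r · j)).card
    · obtain ⟨j, hj⟩ := card_pos.1 (show 0 < s.card by omega)
      refine (fib S _ (fun P b => (n P : ℚ) / d P = b) _
        (fun P hP => ⟨_, mem_image_of_mem _ hP, rfl⟩) fun S' hS b _ hb => ?_).trans
        (Nat.mul_le_mul_right _ ((step hK hκ hF hJ hT hm hm' hG (by omega) h0 h1
          (fun j => (hg j).2) h hr).trans FG))
      have e : ∀ P ∈ S', ∀ Q ∈ S', n P * d Q = n Q * d P := fun P hP Q hQ =>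
        key h P (hS hP) Q (hS hQ) ((hb P hP).trans (hb Q hQ).symm)
      refine ih (s.erase j) (g j) S' (r · j) (fun _ => 1) (by rw [card_erase_of_mem hj, hs]; rfl)
        (hg j).1 (hg j).2 ⟨fun P hP => ?_, fun P hP i hi => ?_, fun P hP Q hQ => ?_,
          fun P hP Q hQ => ?_, fun P hP Q hQ e1 e2 => ?_⟩
      · obtain ⟨-, p1, p2, -⟩ := h.pr P (hS hP) j hj
        exact ⟨p1, by simp, p2.trans (Nat.pow_le_pow_right m2.le hJ), Nat.one_le_pow _ _ m2.le⟩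
      · obtain ⟨p1, p2, p3, -, -, p4⟩ := h.pr P (hS hP) i (mem_of_mem_erase hi)
        exact ⟨p1, p2, p3, fun h' => ne_of_mem_erase hi (p4 j hj ((Nat.prime_dvd_prime_iff_eq p1
          (h.pr P (hS hP) j hj).1).1 h').symm).symm, p1.not_dvd_one,
          fun i hi => p4 i (mem_of_mem_erase hi)⟩
      · have := (h.md P (hS hP) Q (hS hQ)).2
        exact ⟨(this j hj).mul_right _, fun i hi => this i (mem_of_mem_erase hi)⟩
      · have := h.rel P (hS hP) Q (hS hQ)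
        rw [e P hP Q hQ, ← mul_prod_erase s _ hj, ← mul_prod_erase s _ hj] at this
        simpa using this.cancel_left_of_coprime (Nat.Coprime.pow _ _
          ((h.cn Q (hS hQ)).1.mul_left (h.cn P (hS hP)).2.1).symm)
      · refine h.inj P (hS hP) Q (hS hQ) (e P hP Q hQ) fun i hi => ?_
        by_cases e3 : i = j
        · simpa [e3] using e1
        · exact e2 i (mem_erase.2 ⟨e3, hi⟩)
    · push Not at hr
      obtain ⟨j, hj, hr⟩ := hr
      refine (fib S _ (fun P b => r P j = b) _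
        (fun P hP => ⟨_, mem_image_of_mem _ hP, rfl⟩) fun S' hS b _ hb => ?_).trans
        (Nat.mul_le_mul_right _ hr.le)
      refine ih (s.erase j) g0 S' n d (by rw [card_erase_of_mem hj, hs]; rfl) h0 h1
        ⟨fun P hP => h.cn P (hS hP), fun P hP i hi => ?_, fun P hP Q hQ => ?_,
          fun P hP Q hQ => ?_, fun P hP Q hQ e1 e2 => ?_⟩
      · obtain ⟨p1, p2, p3, p4, p5, p6⟩ := h.pr P (hS hP) i (mem_of_mem_erase hi)
        exact ⟨p1, p2, p3, p4, p5, fun i hi => p6 i (mem_of_mem_erase hi)⟩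
      · have := h.md P (hS hP) Q (hS hQ)
        exact ⟨this.1, fun i hi => this.2 i (mem_of_mem_erase hi)⟩
      · have := h.rel P (hS hP) Q (hS hQ)
        rw [← mul_prod_erase s _ hj, ← mul_prod_erase s _ hj, hb P hP, hb Q hQ,
          mul_left_comm _ (b ^ _), mul_left_comm _ (b ^ _)] at this
        exact this.cancel_left_of_coprime (Nat.Coprime.pow _ _
          (hb P hP ▸ (h.pr P (hS hP) j hj).2.1).symm)
      · refine h.inj P (hS hP) Q (hS hQ) e1 fun i hi => ?_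
        by_cases e3 : i = j
        · rw [e3, hb P hP, hb Q hQ]
        · exact e2 i (mem_erase.2 ⟨e3, hi⟩)

end Pool.Agent.P.MP_7aad9f_nt.TR
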